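import Pool.Agent.Lib.AbcR.Main

/-!
# For all but few `r` every triple composed of primes of `r` has `log c < r ^ e`

Also the sum of the inverse radicals of the triples with `log c ≥ L` from a height bound
`log c ≤ rad ^ θ`.
-/

open Finset Filter Topology

namespace Pool.Agent.Lib.AbcH

open Pool.Agent.Lib.Pabc2 Pool.Agent.Lib.Pabc1 Pool.Agent.Lib.AbcL Pool.Agent.Lib.Pabc14

/-- `exp (-c L) ≤ K L^(-s)`. -/
theorem exp_le_gen (c s : ℝ) (hc : 0 < c) : ∃ K : ℝ, 0 < K ∧ ∀ L : ℝ, 1 ≤ L →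
    Real.exp (-(c * L)) ≤ K * L ^ (-s) := by
  set m : ℕ := ⌈s⌉₊ with hm
  refine ⟨(m.factorial : ℝ) / c ^ m, by positivity, fun L hL => ?_⟩
  have hL0 : 0 < L := by linarith
  have h1 : (c * L) ^ m / (m.factorial : ℝ) ≤ Real.exp (c * L) :=
    Real.pow_div_factorial_le_exp _ (by positivity) _
  have h2 : L ^ (-(m : ℝ)) ≤ L ^ (-s) :=
    Real.rpow_le_rpow_of_exponent_le hL (by have := Nat.le_ceil s; linarith)
  rw [Real.exp_neg]
  have h3 : (Real.exp (c * L))⁻¹ ≤ ((c * L) ^ m / (m.factorial : ℝ))⁻¹ :=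
    inv_anti₀ (by positivity) h1
  refine h3.trans ?_
  have h4 : ((c * L) ^ m / (m.factorial : ℝ))⁻¹ = (m.factorial : ℝ) / c ^ m * L ^ (-(m : ℝ)) := by
    rw [Real.rpow_neg hL0.le, Real.rpow_natCast, mul_pow]
    field_simp
  rw [h4]
  exact mul_le_mul_of_nonneg_left h2 (by positivity)

/-- The sum of the inverse radicals of the triples with `log c ≥ L`, from a height bound. -/
theorem sum_inv_gen (θ s : ℝ) (hθ : 0 < θ) (hs : 0 < s) (hsθ : s * θ < 2 / 3)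
    (hH : ∀ᶠ n : ℕ in atTop, ∀ t : ℕ × ℕ, IsT t → rd t ≤ n → ht t ≤ (n : ℝ) ^ θ) :
    ∃ K L0 : ℝ, 0 < K ∧ 1 ≤ L0 ∧ ∀ L : ℝ, L0 ≤ L → ∀ T : Finset (ℕ × ℕ),
    (∀ t ∈ T, IsT t ∧ L ≤ ht t) → ∑ t ∈ T, 1 / (rd t : ℝ) ≤ K * L ^ (-s) := by
  classical
  set ε : ℝ := (2 / 3 - s * θ) / 2 with hε
  have hε0 : 0 < ε := by rw [hε]; linarith
  set τ : ℝ := min ε (1 / 100) with hτ
  have hτ0 : 0 < τ := by positivity
  have hτ1 : τ ≤ ε := min_le_left _ _
  have hτ2 : τ ≤ 1 / 100 := min_le_right _ _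
  obtain ⟨M0, hM01, hM0⟩ := tall_all ε hε0
  obtain ⟨n0, hn0⟩ := ((hM0.and (Pabc9.main_all Pabc9.thmE (1 / 80) (by norm_num))).and
    (hH.and (eventually_ge_atTop 2))).exists_forall_of_atTop
  obtain ⟨K1, hK1, hexp⟩ := exp_le_gen (1 / (25 * M0)) s (by positivity)
  set x : ℝ := (2 : ℝ) ^ (-τ) with hx
  have hx0 : 0 < x := by positivity
  have hx1 : x < 1 := Real.rpow_lt_one_of_one_lt_of_neg (by norm_num) (by linarith)
  have hG : 0 < 1 / (1 - x) := by
    have : 0 < 1 - x := by linarith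
    positivity
  refine ⟨2 * (1 + K1) * (1 / (1 - x)), (n0 : ℝ) ^ θ + 1, by positivity, by
    have : (0 : ℝ) ≤ (n0 : ℝ) ^ θ := by positivity
    linarith, ?_⟩
  intro L hL T hT
  have hn0p : (0 : ℝ) ≤ (n0 : ℝ) ^ θ := by positivity
  have hL1 : 1 ≤ L := by linarith
  have hL0 : 0 < L := by linarith
  -- the scale of a triple
  set f : ℕ × ℕ → ℕ := fun t => Nat.log 2 (rd t) + 1 with hf
  obtain ⟨B, hB⟩ : ∃ B : ℕ, ∀ t ∈ T, f t < B := by
    refine ⟨T.sup f + 1, fun t ht => ?_⟩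
    exact Nat.lt_succ_of_le (Finset.le_sup ht)
  have hmaps : ∀ t ∈ T, f t ∈ Finset.range B := fun t ht => Finset.mem_range.mpr (hB t ht)
  have hscale : ∀ t ∈ T, rd t ≤ 2 ^ f t ∧ 2 ^ f t ≤ 2 * rd t := by
    intro t _
    simp only [hf]
    refine ⟨(Nat.lt_pow_succ_log_self (by norm_num) _).le, ?_⟩
    rw [pow_succ, mul_comm]
    exact Nat.mul_le_mul_left _ (Nat.pow_log_le_self 2 (by have := rd_pos t; omega))
  rw [← Finset.sum_fiberwise_of_maps_to hmaps]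
  -- one scale
  have key : ∀ k ∈ Finset.range B, ∑ t ∈ T.filter (fun t => f t = k), 1 / (rd t : ℝ) ≤
      2 * (1 + K1) * L ^ (-s) * x ^ k := by
    intro k _
    rcases (T.filter (fun t => f t = k)).eq_empty_or_nonempty with he | ⟨t0, ht0⟩
    · rw [he, Finset.sum_empty]
      positivity
    rw [Finset.mem_filter] at ht0
    obtain ⟨hI0, hh0⟩ := hT t0 ht0.1
    obtain ⟨hs1, hs2⟩ := hscale t0 ht0.1
    rw [ht0.2] at hs1 hs2
    have hkn0 : n0 ≤ 2 ^ k := by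
      by_contra hcon
      rw [not_le] at hcon
      have h1 := (hn0 n0 le_rfl).2.1 t0 hI0 (hs1.trans hcon.le)
      linarith
    obtain ⟨⟨g1, g2⟩, g3, g4⟩ := hn0 (2 ^ k) hkn0
    set n : ℝ := ((2 ^ k : ℕ) : ℝ) with hn
    have hnk : n = (2 : ℝ) ^ k := by rw [hn]; push_cast; rfl
    have hn0' : 0 < n := by rw [hnk]; positivity
    have hn1' : 1 ≤ n := by rw [hnk]; exact one_le_pow₀ (by norm_num)
    have hxk : x ^ k = n ^ (-τ) := by
      rw [hx, hnk, ← Real.rpow_natCast, ← Real.rpow_natCast, ← Real.rpow_mul (by norm_num),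
        ← Real.rpow_mul (by norm_num), mul_comm]
    -- the sum is at most `2 card / n`
    have hsum : ∑ t ∈ T.filter (fun t => f t = k), 1 / (rd t : ℝ) ≤
        ((T.filter (fun t => f t = k)).card : ℝ) * (2 / n) := by
      rw [← nsmul_eq_mul]
      apply Finset.sum_le_card_nsmul
      intro t ht
      rw [Finset.mem_filter] at ht
      have h1 := (hscale t ht.1).2
      rw [ht.2] at h1
      have h2 : n ≤ 2 * (rd t : ℝ) := by
        rw [hn]
        exact_mod_cast h1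
      have h3 : (0 : ℝ) < rd t := by exact_mod_cast rd_pos t
      rw [div_le_div_iff₀ h3 hn0']
      linarith
    refine hsum.trans ?_
    -- `n ≥ L^(1/θ)`
    have hnL : L ≤ n ^ θ := hh0.trans (g3 t0 hI0 hs1)
    have hrdk : ∀ t ∈ T.filter (fun t => f t = k), IsT t ∧ rd t ≤ 2 ^ k := by
      intro t ht
      rw [Finset.mem_filter] at ht
      have h1 := (hscale t ht.1).1
      rw [ht.2] at h1
      exact ⟨(hT t ht.1).1, h1⟩
    rw [hxk]
    by_cases hc : M0 * Real.log n ≤ L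
    · have h1 := g1 (T.filter (fun t => f t = k)) (fun t ht => by
        obtain ⟨a1, a2⟩ := hrdk t ht
        rw [Finset.mem_filter] at ht
        exact ⟨a1, a2, hc.trans (hT t ht.1).2⟩)
      have h2 : n ^ (1 / 3 + ε) * (2 / n) = 2 * (n ^ (-(s * θ)) * n ^ (-ε)) := by
        have e1 : n ^ (1 / 3 + ε) * (2 / n) = 2 * (n ^ (1 / 3 + ε) * n ^ (-1 : ℝ)) := by
          rw [Real.rpow_neg_one]
          ring
        rw [e1, ← Real.rpow_add hn0', ← Real.rpow_add hn0']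
        congr 2
        rw [hε]
        ring
      have h3 : n ^ (-(s * θ)) ≤ L ^ (-s) := by
        have e1 : n ^ (-(s * θ)) = (n ^ θ) ^ (-s) := by
          rw [← Real.rpow_mul hn0'.le]
          congr 1
          ring
        rw [e1]
        exact Real.rpow_le_rpow_of_nonpos hL0 hnL (by linarith)
      have h4 : n ^ (-ε) ≤ n ^ (-τ) := Real.rpow_le_rpow_of_exponent_le hn1' (by linarith)
      calc ((T.filter (fun t => f t = k)).card : ℝ) * (2 / n)
          ≤ n ^ (1 / 3 + ε) * (2 / n) := mul_le_mul_of_nonneg_right h1 (by positivity)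
        _ = 2 * (n ^ (-(s * θ)) * n ^ (-ε)) := h2
        _ ≤ 2 * (L ^ (-s) * n ^ (-τ)) := by gcongr
        _ ≤ 2 * (1 + K1) * L ^ (-s) * n ^ (-τ) := by
            have : 0 ≤ 2 * K1 * (L ^ (-s) * n ^ (-τ)) := by positivity
            linarith
    · rw [not_le] at hc
      have h1 := g2 (T.filter (fun t => f t = k)) hrdk
      have h1' : ((T.filter (fun t => f t = k)).card : ℝ) ≤ n ^ (19 / 20 : ℝ) := by
        have e1 : (1 - 1 / 16 + 1 / 80 : ℝ) = 19 / 20 := by norm_num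
        rw [e1] at h1
        have : (0 : ℝ) ≤ (T.filter (fun t => f t = k)).card := Nat.cast_nonneg _
        linarith
      have h2 : n ^ (19 / 20 : ℝ) * (2 / n) = 2 * (n ^ (-(1 / 25) : ℝ) *
          n ^ (-(1 / 100) : ℝ)) := by
        have e1 : n ^ (19 / 20 : ℝ) * (2 / n) = 2 * (n ^ (19 / 20 : ℝ) * n ^ (-1 : ℝ)) := by
          rw [Real.rpow_neg_one]
          ring
        rw [e1, ← Real.rpow_add hn0', ← Real.rpow_add hn0']
        norm_num
      have h3 : n ^ (-(1 / 25) : ℝ) ≤ K1 * L ^ (-s) := by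
        refine le_trans ?_ (hexp L hL1)
        rw [Real.rpow_def_of_pos hn0', Real.exp_le_exp]
        have hM0' : (0 : ℝ) < M0 := by linarith
        have h4 : 1 / (25 * M0) * L ≤ 1 / (25 * M0) * (M0 * Real.log n) :=
          mul_le_mul_of_nonneg_left hc.le (by positivity)
        have h5 : 1 / (25 * M0) * (M0 * Real.log n) = Real.log n * (1 / 25) := by
          field_simp
        rw [h5] at h4
        linarith
      have h4 : n ^ (-(1 / 100) : ℝ) ≤ n ^ (-τ) :=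
        Real.rpow_le_rpow_of_exponent_le hn1' (by linarith)
      calc ((T.filter (fun t => f t = k)).card : ℝ) * (2 / n)
          ≤ n ^ (19 / 20 : ℝ) * (2 / n) := mul_le_mul_of_nonneg_right h1' (by positivity)
        _ = 2 * (n ^ (-(1 / 25) : ℝ) * n ^ (-(1 / 100) : ℝ)) := h2
        _ ≤ 2 * (K1 * L ^ (-s) * n ^ (-τ)) := by gcongr
        _ ≤ 2 * (1 + K1) * L ^ (-s) * n ^ (-τ) := by
            have : 0 ≤ 2 * (L ^ (-s) * n ^ (-τ)) := by positivity
            linarith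
  refine (Finset.sum_le_sum key).trans ?_
  rw [← Finset.mul_sum]
  have hg := AbcR.geom_le x hx0.le hx1 (Finset.range B)
  calc 2 * (1 + K1) * L ^ (-s) * ∑ k ∈ Finset.range B, x ^ k
      ≤ 2 * (1 + K1) * L ^ (-s) * (1 / (1 - x)) :=
        mul_le_mul_of_nonneg_left hg (by positivity)
    _ = 2 * (1 + K1) * (1 / (1 - x)) * L ^ (-s) := by ring

/-- The number of `r ≤ Y` with a triple composed of primes of `r` and `log c ≥ r ^ e`. -/
theorem few_r_of_sum (s : ℝ) (hs : 0 < s)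
    (hS : ∃ K L0 : ℝ, 0 < K ∧ 1 ≤ L0 ∧ ∀ L : ℝ, L0 ≤ L → ∀ T : Finset (ℕ × ℕ),
      (∀ t ∈ T, IsT t ∧ L ≤ ht t) → ∑ t ∈ T, 1 / (rd t : ℝ) ≤ K * L ^ (-s))
    (e : ℝ) (he : 0 < e) : ∃ K : ℝ, 0 < K ∧ ∀ Y : ℕ, 1 ≤ Y →
    (({r : ℕ | 1 ≤ r ∧ r ≤ Y ∧ ∃ t : ℕ × ℕ, IsT t ∧ (N t).primeFactors ⊆ r.primeFactors ∧
      (r : ℝ) ^ e ≤ ht t}).ncard : ℝ) ≤ K * (Y : ℝ) ^ (1 / (1 + s * e)) := by
  classical
  obtain ⟨K, L0, hK, hL0, hsum⟩ := hS
  set q : ℝ := 1 / (1 + s * e) with hq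
  have hse : 0 < s * e := mul_pos hs he
  have hq0 : 0 < q := by positivity
  have hq1 : q < 1 := by
    rw [hq, div_lt_one (by linarith)]
    linarith
  have hqe : s * (e * q) = 1 - q := by
    rw [hq]
    field_simp
    ring
  have heq : 0 < e * q := mul_pos he hq0
  refine ⟨1 + K + L0 ^ (1 / (e * q)), by positivity, fun Y hY => ?_⟩
  have hY0 : (0 : ℝ) < Y := by exact_mod_cast hY
  have hY1 : (1 : ℝ) ≤ Y := by exact_mod_cast hY
  set S : Set ℕ := {r : ℕ | 1 ≤ r ∧ r ≤ Y ∧ ∃ t : ℕ × ℕ, IsT t ∧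
    (N t).primeFactors ⊆ r.primeFactors ∧ (r : ℝ) ^ e ≤ ht t} with hSdef
  have hsub : S ⊆ ((Finset.Ioc 0 Y : Finset ℕ) : Set ℕ) := by
    intro r hr
    rw [Finset.coe_Ioc, Set.mem_Ioc]
    exact ⟨hr.1, hr.2.1⟩
  have hfin : S.Finite := (Finset.finite_toSet _).subset hsub
  have hYq : (1 : ℝ) ≤ (Y : ℝ) ^ q := Real.one_le_rpow hY1 hq0.le
  have hL0p : (0 : ℝ) < L0 := by linarith
  have hL0q : (0 : ℝ) < L0 ^ (1 / (e * q)) := by positivity
  set L : ℝ := (Y : ℝ) ^ (e * q) with hL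
  by_cases hc : L < L0
  · -- small `Y`
    have h1 : (S.ncard : ℝ) ≤ Y := by
      have h2 := Set.ncard_le_ncard hsub (Finset.finite_toSet _)
      rw [Set.ncard_coe_finset, Nat.card_Ioc, Nat.sub_zero] at h2
      exact_mod_cast h2
    have h3 : (Y : ℝ) ≤ L0 ^ (1 / (e * q)) := by
      calc (Y : ℝ) = L ^ (1 / (e * q)) := by
            rw [hL, ← Real.rpow_mul hY0.le, mul_one_div_cancel heq.ne', Real.rpow_one]
        _ ≤ L0 ^ (1 / (e * q)) := Real.rpow_le_rpow (by positivity) hc.le (by positivity)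
    calc (S.ncard : ℝ) ≤ L0 ^ (1 / (e * q)) * 1 := by linarith
      _ ≤ (1 + K + L0 ^ (1 / (e * q))) * (Y : ℝ) ^ q := by
          apply mul_le_mul (by linarith) hYq (by norm_num) (by positivity)
  · rw [not_lt] at hc
    -- choose the triples
    have hex : ∀ r : ℕ, ∃ t : ℕ × ℕ, r ∈ S → IsT t ∧ (N t).primeFactors ⊆ r.primeFactors ∧
        (r : ℝ) ^ e ≤ ht t := by
      intro r
      by_cases hr : r ∈ S
      · obtain ⟨t, ht'⟩ := hr.2.2
        exact ⟨t, fun _ => ht'⟩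
      · exact ⟨(0, 0), fun h => absurd h hr⟩
    choose g hg using hex
    set A : Finset ℕ := hfin.toFinset with hA
    set A1 : Finset ℕ := A.filter (fun r : ℕ => (r : ℝ) ≤ (Y : ℝ) ^ q) with hA1
    set A2 : Finset ℕ := A.filter (fun r : ℕ => ¬ (r : ℝ) ≤ (Y : ℝ) ^ q) with hA2
    have hcard : A.card = A1.card + A2.card := by
      rw [hA1, hA2]
      exact (Finset.card_filter_add_card_filter_not _).symm
    have hA1c : (A1.card : ℝ) ≤ (Y : ℝ) ^ q := by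
      have h1 : A1 ⊆ Finset.Ioc 0 ⌊(Y : ℝ) ^ q⌋₊ := by
        intro r hr
        rw [hA1, Finset.mem_filter, hA, Set.Finite.mem_toFinset] at hr
        rw [Finset.mem_Ioc]
        exact ⟨hr.1.1, Nat.le_floor hr.2⟩
      have h2 := Finset.card_le_card h1
      rw [Nat.card_Ioc, Nat.sub_zero] at h2
      calc (A1.card : ℝ) ≤ (⌊(Y : ℝ) ^ q⌋₊ : ℝ) := by exact_mod_cast h2
        _ ≤ (Y : ℝ) ^ q := Nat.floor_le (by positivity)
    set T : Finset (ℕ × ℕ) := A2.image g with hT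
    have hmemA2 : ∀ r ∈ A2, r ∈ S ∧ (Y : ℝ) ^ q < r := by
      intro r hr
      rw [hA2, Finset.mem_filter, hA, Set.Finite.mem_toFinset, not_le] at hr
      exact hr
    have hTprop : ∀ t ∈ T, IsT t ∧ L ≤ ht t := by
      intro t ht'
      rw [hT, Finset.mem_image] at ht'
      obtain ⟨r, hr, rfl⟩ := ht'
      obtain ⟨hrS, hrY⟩ := hmemA2 r hr
      obtain ⟨h1, _, h3⟩ := hg r hrS
      refine ⟨h1, le_trans ?_ h3⟩
      calc L = ((Y : ℝ) ^ q) ^ e := by
            rw [hL, ← Real.rpow_mul hY0.le]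
            congr 1
            ring
        _ ≤ (r : ℝ) ^ e := Real.rpow_le_rpow (by positivity) hrY.le he.le
    have hsumT := hsum L hc T hTprop
    have hA2c : (A2.card : ℝ) ≤ (Y : ℝ) * (K * L ^ (-s)) := by
      have h1 : A2 ⊆ T.biUnion (fun t => (Finset.Ioc 0 Y).filter (fun r => rd t ∣ r)) := by
        intro r hr
        rw [Finset.mem_biUnion]
        refine ⟨g r, Finset.mem_image_of_mem g hr, ?_⟩
        obtain ⟨hrS, _⟩ := hmemA2 r hr
        obtain ⟨_, h2, _⟩ := hg r hrS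
        rw [Finset.mem_filter, Finset.mem_Ioc]
        refine ⟨⟨hrS.1, hrS.2.1⟩, ?_⟩
        exact (Finset.prod_dvd_prod_of_subset _ _ _ h2).trans (Nat.prod_primeFactors_dvd r)
      have h2 : A2.card ≤ ∑ t ∈ T, Y / rd t := by
        refine (Finset.card_le_card h1).trans (Finset.card_biUnion_le.trans ?_)
        apply Finset.sum_le_sum
        intro t _
        rw [Nat.Ioc_filter_dvd_card_eq_div]
      calc (A2.card : ℝ) ≤ ((∑ t ∈ T, Y / rd t : ℕ) : ℝ) := by exact_mod_cast h2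
        _ ≤ ∑ t ∈ T, (Y : ℝ) * (1 / (rd t : ℝ)) := by
            push_cast
            apply Finset.sum_le_sum
            intro t _
            rw [mul_one_div]
            exact Nat.cast_div_le
        _ = (Y : ℝ) * ∑ t ∈ T, 1 / (rd t : ℝ) := by rw [Finset.mul_sum]
        _ ≤ (Y : ℝ) * (K * L ^ (-s)) := mul_le_mul_of_nonneg_left hsumT hY0.le
    have hfinal : (Y : ℝ) * (K * L ^ (-s)) = K * (Y : ℝ) ^ q := by
      have h1 : L ^ (-s) = (Y : ℝ) ^ (q - 1) := by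
        rw [hL, ← Real.rpow_mul hY0.le]
        congr 1
        linarith
      rw [h1, Real.rpow_sub_one hY0.ne']
      field_simp
    have hncard : (S.ncard : ℝ) = (A1.card : ℝ) + A2.card := by
      rw [Set.ncard_eq_toFinset_card S hfin, ← hA, hcard]
      push_cast
      ring
    rw [hncard]
    have h5 : (0 : ℝ) ≤ L0 ^ (1 / (e * q)) * (Y : ℝ) ^ q := by positivity
    calc (A1.card : ℝ) + A2.card ≤ (Y : ℝ) ^ q + K * (Y : ℝ) ^ q := by
          rw [← hfinal]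
          exact add_le_add hA1c hA2c
      _ ≤ (1 + K + L0 ^ (1 / (e * q))) * (Y : ℝ) ^ q := by linarith

/-- All but `K Y ^ (1 - e/5)` of the `r ≤ Y` admit no abc-triple composed of primes of `r` with
`log c ≥ r ^ e`. -/
theorem few_r5 (e : ℝ) (he : 0 < e) (he1 : e ≤ 1) : ∃ K : ℝ, 0 < K ∧ ∀ Y : ℕ, 1 ≤ Y →
    (({r : ℕ | 1 ≤ r ∧ r ≤ Y ∧ ∃ t : ℕ × ℕ, IsT t ∧ (N t).primeFactors ⊆ r.primeFactors ∧
      (r : ℝ) ^ e ≤ ht t}).ncard : ℝ) ≤ K * (Y : ℝ) ^ (1 - e / 5) := by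
  obtain ⟨K, hK, h1⟩ := few_r_of_sum (3 / 10) (by norm_num) AbcR.sum_inv e he
  refine ⟨K, hK, fun Y hY => (h1 Y hY).trans ?_⟩
  have hY1 : (1 : ℝ) ≤ Y := by exact_mod_cast hY
  refine mul_le_mul_of_nonneg_left (Real.rpow_le_rpow_of_exponent_le hY1 ?_) hK.le
  rw [div_le_iff₀ (by positivity)]
  nlinarith

/-- All but `K Y ^ (1 - e/6)` of the `r ≤ Y` admit no abc-triple composed of primes of `r` with
`log c ≥ r ^ e`. -/
theorem few_r (e : ℝ) (he : 0 < e) (he1 : e ≤ 1) : ∃ K : ℝ, 0 < K ∧ ∀ Y : ℕ, 1 ≤ Y →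
    (({r : ℕ | 1 ≤ r ∧ r ≤ Y ∧ ∃ t : ℕ × ℕ, IsT t ∧ (N t).primeFactors ⊆ r.primeFactors ∧
      (r : ℝ) ^ e ≤ ht t}).ncard : ℝ) ≤ K * (Y : ℝ) ^ (1 - e / 6) := by
  obtain ⟨K, hK, h1⟩ := few_r5 e he he1
  refine ⟨K, hK, fun Y hY => (h1 Y hY).trans ?_⟩
  have hY1 : (1 : ℝ) ≤ Y := by exact_mod_cast hY
  exact mul_le_mul_of_nonneg_left (Real.rpow_le_rpow_of_exponent_le hY1 (by linarith)) hK.le

end Pool.Agent.Lib.AbcH
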