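import Mathlib

/-!
# Grouping a set of primes into few groups of small product
-/

namespace Pool.Agent.Lib.AbcH

open Finset

theorem group (w : ℕ → ℝ) (Z P : ℝ) (hZ : 1 ≤ Z) (hP : 1 ≤ P) (j : ℕ) (hj : 1 ≤ j) :
    ∀ Q : Finset ℕ, (∀ p ∈ Q, 0 ≤ w p) → (∀ p ∈ Q, 1 ≤ p) → (∀ p ∈ Q, (p : ℝ) ≤ P) →
      ∏ p ∈ Q, (p : ℝ) ≤ Z ^ j →
      ∃ G ⊆ Q, ∏ p ∈ G, (p : ℝ) ≤ Z * P ∧ ∑ p ∈ Q, w p ≤ j * ∑ p ∈ G, w p := by
  classical
  induction j, hj using Nat.le_induction with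
  | base =>
    intro Q hw h1 hP' h
    refine ⟨Q, Finset.Subset.refl _, ?_, ?_⟩
    · rw [pow_one] at h
      refine h.trans ?_
      nlinarith
    · simp
  | succ j hj ih =>
    intro Q hw h1 hP' h
    have hsum0 : ∀ G ⊆ Q, 0 ≤ ∑ p ∈ G, w p := fun G hG =>
      Finset.sum_nonneg fun p hp => hw p (hG hp)
    have hj0 : (1 : ℝ) ≤ j := by exact_mod_cast hj
    by_cases hQ : ∏ p ∈ Q, (p : ℝ) ≤ Z * P
    · refine ⟨Q, Finset.Subset.refl _, hQ, ?_⟩
      have := hsum0 Q (Finset.Subset.refl _)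
      push_cast
      nlinarith
    · push Not at hQ
      set F := Q.powerset.filter (fun G : Finset ℕ => Z < ∏ p ∈ G, (p : ℝ)) with hF
      have hFne : F.Nonempty := by
        refine ⟨Q, ?_⟩
        rw [hF, Finset.mem_filter, Finset.mem_powerset]
        refine ⟨Finset.Subset.refl _, lt_of_le_of_lt ?_ hQ⟩
        nlinarith
      obtain ⟨G1, hG1, hmin⟩ := Finset.exists_min_image F Finset.card hFne
      rw [hF, Finset.mem_filter, Finset.mem_powerset] at hG1
      obtain ⟨hG1Q, hG1Z⟩ := hG1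
      have hG1ne : G1.Nonempty := by
        rw [Finset.nonempty_iff_ne_empty]
        rintro rfl
        rw [Finset.prod_empty] at hG1Z
        linarith
      obtain ⟨q, hq⟩ := hG1ne
      have herase : ∏ p ∈ G1.erase q, (p : ℝ) ≤ Z := by
        by_contra hcon
        push Not at hcon
        have hmem : G1.erase q ∈ F := by
          rw [hF, Finset.mem_filter, Finset.mem_powerset]
          exact ⟨(Finset.erase_subset _ _).trans hG1Q, hcon⟩
        have := hmin _ hmem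
        have h2 := Finset.card_erase_lt_of_mem hq
        omega
      have hprod : ∏ p ∈ G1, (p : ℝ) ≤ Z * P := by
        rw [← Finset.mul_prod_erase G1 (fun p : ℕ => (p : ℝ)) hq, mul_comm]
        have h3 := hP' q (hG1Q hq)
        have h4 : (0 : ℝ) ≤ q := Nat.cast_nonneg _
        have h5 : (0 : ℝ) ≤ ∏ p ∈ G1.erase q, (p : ℝ) := Finset.prod_nonneg fun p _ => Nat.cast_nonneg _
        gcongr
      have hrest : ∏ p ∈ Q \ G1, (p : ℝ) ≤ Z ^ j := by
        have h3 : (∏ p ∈ Q \ G1, (p : ℝ)) * ∏ p ∈ G1, (p : ℝ) = ∏ p ∈ Q, (p : ℝ) :=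
          Finset.prod_sdiff hG1Q
        have h5 : (0 : ℝ) ≤ ∏ p ∈ Q \ G1, (p : ℝ) := Finset.prod_nonneg fun p _ => Nat.cast_nonneg _
        have h6 : (∏ p ∈ Q \ G1, (p : ℝ)) * Z ≤ Z ^ j * Z := by
          calc (∏ p ∈ Q \ G1, (p : ℝ)) * Z ≤ (∏ p ∈ Q \ G1, (p : ℝ)) * ∏ p ∈ G1, (p : ℝ) := by
                gcongr
            _ = _ := h3
            _ ≤ Z ^ (j + 1) := h
            _ = Z ^ j * Z := pow_succ _ _
        exact le_of_mul_le_mul_right h6 (by linarith)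
      obtain ⟨G2, hG2, hG2P, hG2w⟩ := ih (Q \ G1)
        (fun p hp => hw p (Finset.sdiff_subset hp)) (fun p hp => h1 p (Finset.sdiff_subset hp))
        (fun p hp => hP' p (Finset.sdiff_subset hp)) hrest
      have hsplit : ∑ p ∈ Q \ G1, w p + ∑ p ∈ G1, w p = ∑ p ∈ Q, w p := Finset.sum_sdiff hG1Q
      have s1 := hsum0 G1 hG1Q
      have s2 := hsum0 G2 (hG2.trans Finset.sdiff_subset)
      rcases le_total (∑ p ∈ G1, w p) (∑ p ∈ G2, w p) with hle | hle
      · refine ⟨G2, hG2.trans Finset.sdiff_subset, hG2P, ?_⟩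
        push_cast
        nlinarith
      · refine ⟨G1, hG1Q, hprod, ?_⟩
        push_cast
        nlinarith

end Pool.Agent.Lib.AbcH
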