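import Mathlib
import Pool.Agent.Lib.Pabc2.Count
import Pool.Agent.Lib.AbcH.Group

/-!
# Triples with a light part composed of small primes
-/

namespace Pool.Agent.Lib.AbcH

open Finset Pool.Agent.Lib.Pabc2

/-- The statement of the height bound for `S`-units close to `1` modulo `M`, with the exponent
`κ` of the radical of `M`. -/
def ThmE2 (κ : ℕ) : Prop := ∀ A eta : ℝ, 1 ≤ A → 0 < eta → ∃ K : ℝ, 0 < K ∧ ∀ Z1 Z2 M : ℕ,
  0 < Z1 → 0 < Z2 → Nat.Coprime Z1 Z2 → 0 < M → (M : ℤ) ∣ (Z1 : ℤ) - Z2 →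
  Real.log Z1 + Real.log Z2 ≤ A * Real.log M →
  Real.log Z1 + Real.log Z2 ≤ K * (∏ p ∈ M.primeFactors, (p : ℝ)) ^ κ *
    (∏ p ∈ (Z1 * Z2 * M).primeFactors, (p : ℝ)) ^ eta

/-- the part of `m` composed of the primes of `G` -/
noncomputable def part (G : Finset ℕ) (m : ℕ) : ℕ := ∏ p ∈ G, p ^ m.factorization p

theorem part_pos {G : Finset ℕ} (hG : ∀ p ∈ G, p.Prime) (m : ℕ) : 0 < part G m :=
  Finset.prod_pos fun p hp => pow_pos (hG p hp).pos _

theorem part_dvd {G : Finset ℕ} (m : ℕ) (hm : m ≠ 0) (hG : ∀ p ∈ G, p.Prime) : part G m ∣ m := by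
  classical
  have h1 : part G m ∣ ∏ p ∈ G ∪ m.primeFactors, p ^ m.factorization p :=
    Finset.prod_dvd_prod_of_subset _ _ _ Finset.subset_union_left
  have h2 : ∏ p ∈ G ∪ m.primeFactors, p ^ m.factorization p = m := by
    conv_rhs => rw [← Nat.prod_factorization_pow_eq_self hm]
    rw [Finsupp.prod, Nat.support_factorization]
    symm
    apply Finset.prod_subset Finset.subset_union_right
    intro q _ hq
    rw [← Nat.support_factorization, Finsupp.notMem_support_iff] at hq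
    rw [hq, pow_zero]
  rwa [h2] at h1

theorem part_primeFactors {G : Finset ℕ} (m : ℕ) (hG : ∀ p ∈ G, p.Prime) :
    (part G m).primeFactors ⊆ G := by
  intro q hq
  have hqp := Nat.prime_of_mem_primeFactors hq
  have hqd := Nat.dvd_of_mem_primeFactors hq
  unfold part at hqd
  obtain ⟨p, hp, hpd⟩ := (hqp.prime.dvd_finset_prod_iff _).1 hqd
  have := hqp.dvd_of_dvd_pow hpd
  rw [(Nat.prime_dvd_prime_iff_eq hqp (hG p hp)).1 this]
  exact hp

theorem log_part {G : Finset ℕ} (m : ℕ) (hG : ∀ p ∈ G, p.Prime) :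
    Real.log (part G m : ℕ) = ∑ p ∈ G, (m.factorization p : ℝ) * Real.log p := by
  unfold part
  rw [Nat.cast_prod, Real.log_prod]
  · apply Finset.sum_congr rfl
    intro p _
    rw [Nat.cast_pow, Real.log_pow]
  · intro p hp
    have := (hG p hp).pos
    positivity

theorem prod_primeFactors_le {r : ℕ} (hr : 0 < r) {U : Finset ℕ} (hU : U ⊆ r.primeFactors) :
    ∏ p ∈ U, (p : ℝ) ≤ r := by
  have h1 : ∏ p ∈ U, p ≤ ∏ p ∈ r.primeFactors, p :=
    Finset.prod_le_prod_of_subset_of_one_le' hU fun p hp _ =>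
      (Nat.prime_of_mem_primeFactors hp).one_lt.le
  have h2 : ∏ p ∈ r.primeFactors, p ≤ r := Nat.le_of_dvd hr (Nat.prod_primeFactors_dvd r)
  have h3 := h1.trans h2
  rw [← Nat.cast_prod]
  exact_mod_cast h3

theorem one_le_prod_primes {U : Finset ℕ} (hU : ∀ p ∈ U, p.Prime) : 1 ≤ ∏ p ∈ U, (p : ℝ) := by
  have h : 0 < ∏ p ∈ U, p := Finset.prod_pos fun p hp => (hU p hp).pos
  rw [← Nat.cast_prod]
  exact_mod_cast h

/-- The height of a triple in which the primes outside `S` carry more than a third of the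
height. -/
theorem light {κ : ℕ} (hκ : κ ≤ 2) (hE : ThmE2 κ) (η : ℝ) (hη : 0 < η) : ∃ K : ℝ, 0 < K ∧
    ∀ (r : ℕ) (S : Finset ℕ) (P : ℝ) (t : ℕ × ℕ), 0 < r → 1 ≤ P → IsT t →
      (N t).primeFactors ⊆ r.primeFactors →
      (∀ p ∈ r.primeFactors, p ∉ S → (p : ℝ) ≤ P) → 1000 ≤ ht t →
      ht t / 3 < ∑ p ∈ (N t).primeFactors \ S, (ex t p : ℝ) * Real.log p →
      ht t ≤ K * (r : ℝ) ^ (3 * η) * P ^ κ := by
  classical
  set j : ℕ := ⌈1 / η⌉₊ with hj
  have hj1 : 1 ≤ j := Nat.one_le_iff_ne_zero.2 (by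
    have : 0 < ⌈1 / η⌉₊ := Nat.ceil_pos.2 (by positivity)
    omega)
  have hj1R : (1 : ℝ) ≤ j := by exact_mod_cast hj1
  have hjη : 1 ≤ η * j := by
    have h1 : 1 / η ≤ j := Nat.le_ceil _
    rw [div_le_iff₀ hη] at h1
    linarith
  obtain ⟨K, hK, hE⟩ := hE (36 * j) η (by linarith) hη
  refine ⟨K, hK, ?_⟩
  rintro r S P ⟨a, b⟩ hr hP hT hsub hPS hbig hlight
  have hr1 : (1 : ℝ) ≤ r := by exact_mod_cast hr
  have hr0 : (0 : ℝ) < r := by linarith
  obtain ⟨ha, hab, hcop⟩ := id hT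
  simp only at ha hab hcop
  have hb : 0 < b := lt_of_lt_of_le ha hab
  have hN : N (a, b) = a * b * (a + b) := rfl
  have hht : ht (a, b) = Real.log ((a + b : ℕ) : ℝ) := by
    unfold ht
    push_cast
    rfl
  have hac : Nat.Coprime a (a + b) := by
    rw [Nat.coprime_self_add_right]
    exact hcop
  have hbc : Nat.Coprime b (a + b) := by
    rw [Nat.coprime_add_self_right]
    exact hcop.symm
  have hne : a ≠ b := by
    rintro rfl
    rw [Nat.coprime_self] at hcop
    subst hcop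
    rw [hht] at hbig
    have := Real.log_two_lt_d9
    norm_num at hbig
    linarith
  set U := (N (a, b)).primeFactors \ S with hU
  have hUp : ∀ p ∈ U, p.Prime := fun p hp =>
    Nat.prime_of_mem_primeFactors (Finset.sdiff_subset hp)
  have hUr : U ⊆ r.primeFactors := Finset.sdiff_subset.trans hsub
  have hUP : ∀ p ∈ U, (p : ℝ) ≤ P := by
    intro p hp
    exact hPS p (hUr hp) (Finset.mem_sdiff.1 hp).2
  -- one of the members has a light part
  have hex : ∀ p, ex (a, b) p = a.factorization p + b.factorization p +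
      (a + b).factorization p := by
    intro p
    unfold ex
    rw [hN, Nat.factorization_mul (by positivity) (by positivity),
      Nat.factorization_mul ha.ne' hb.ne']
    rfl
  have hsum : ∑ p ∈ U, (ex (a, b) p : ℝ) * Real.log p =
      ∑ p ∈ U, (a.factorization p : ℝ) * Real.log p + ∑ p ∈ U, (b.factorization p : ℝ) * Real.log p
        + ∑ p ∈ U, ((a + b).factorization p : ℝ) * Real.log p := by
    rw [← Finset.sum_add_distrib, ← Finset.sum_add_distrib]
    apply Finset.sum_congr rfl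
    intro p _
    rw [hex]
    push_cast
    ring
  -- the common argument
  have key : ∀ m Z1 Z2 : ℕ, 0 < m → 0 < Z1 → 0 < Z2 → Nat.Coprime Z1 Z2 →
      (m : ℤ) ∣ (Z1 : ℤ) - Z2 → Real.log Z1 + Real.log Z2 ≤ 4 * ht (a, b) →
      ht (a, b) ≤ Real.log Z1 + Real.log Z2 →
      (Z1 * Z2 * m).primeFactors ⊆ (N (a, b)).primeFactors →
      ht (a, b) / 9 < ∑ p ∈ U, (m.factorization p : ℝ) * Real.log p →
      ht (a, b) ≤ K * (r : ℝ) ^ (3 * η) * P ^ κ := by
    intro m Z1 Z2 hm h1 h2 h12 hdvd hup hlow hpf hlm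
    obtain ⟨G, hGU, hGP, hGw⟩ := group (fun p => (m.factorization p : ℝ) * Real.log p)
      ((r : ℝ) ^ η) P (Real.one_le_rpow hr1 hη.le) hP j hj1 U
      (fun p hp => mul_nonneg (Nat.cast_nonneg _) (Real.log_natCast_nonneg _))
      (fun p hp => (hUp p hp).one_lt.le) hUP (by
        refine (prod_primeFactors_le hr hUr).trans ?_
        rw [← Real.rpow_natCast, ← Real.rpow_mul hr0.le]
        calc (r : ℝ) = (r : ℝ) ^ (1 : ℝ) := (Real.rpow_one _).symm
          _ ≤ _ := Real.rpow_le_rpow_of_exponent_le hr1 hjη)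
    have hGp : ∀ p ∈ G, p.Prime := fun p hp => hUp p (hGU hp)
    have hlogM : ht (a, b) / 9 ≤ j * Real.log (part G m : ℕ) := by
      rw [log_part m hGp]
      exact hlm.le.trans hGw
    have hMdvd : part G m ∣ m := part_dvd m hm.ne' hGp
    have hA : Real.log Z1 + Real.log Z2 ≤ 36 * j * Real.log (part G m : ℕ) := by
      linarith
    have hres := hE Z1 Z2 (part G m) h1 h2 h12 (part_pos hGp m)
      ((Int.natCast_dvd_natCast.2 hMdvd).trans hdvd) hA
    refine (hlow.trans hres).trans ?_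
    have e1 : ∏ p ∈ (part G m).primeFactors, (p : ℝ) ≤ (r : ℝ) ^ η * P := by
      refine le_trans ?_ hGP
      have h3 : ∏ p ∈ (part G m).primeFactors, p ≤ ∏ p ∈ G, p :=
        Finset.prod_le_prod_of_subset_of_one_le' (part_primeFactors m hGp) fun p hp _ =>
          (hGp p hp).one_lt.le
      rw [← Nat.cast_prod, ← Nat.cast_prod]
      exact_mod_cast h3
    have e0 : (0 : ℝ) ≤ ∏ p ∈ (part G m).primeFactors, (p : ℝ) :=
      Finset.prod_nonneg fun p _ => Nat.cast_nonneg p
    have e2 : ∏ p ∈ (Z1 * Z2 * part G m).primeFactors, (p : ℝ) ≤ r := by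
      apply prod_primeFactors_le hr
      refine ((Nat.primeFactors_mono (Nat.mul_dvd_mul_left _ hMdvd) (by positivity)).trans
        hpf).trans hsub
    have e3 : (0 : ℝ) ≤ ∏ p ∈ (Z1 * Z2 * part G m).primeFactors, (p : ℝ) :=
      Finset.prod_nonneg fun p _ => Nat.cast_nonneg p
    have e4 : (1 : ℝ) ≤ (r : ℝ) ^ η := Real.one_le_rpow hr1 hη.le
    calc K * (∏ p ∈ (part G m).primeFactors, (p : ℝ)) ^ κ *
          (∏ p ∈ (Z1 * Z2 * part G m).primeFactors, (p : ℝ)) ^ η
        ≤ K * ((r : ℝ) ^ η * P) ^ κ * (r : ℝ) ^ η := by gcongr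
      _ = K * (((r : ℝ) ^ η) ^ κ * (r : ℝ) ^ η) * P ^ κ := by rw [mul_pow]; ring
      _ ≤ K * (((r : ℝ) ^ η) ^ 2 * (r : ℝ) ^ η) * P ^ κ := by gcongr
      _ = K * ((r : ℝ) ^ η * (r : ℝ) ^ η * (r : ℝ) ^ η) * P ^ κ := by ring
      _ = K * (r : ℝ) ^ (3 * η) * P ^ κ := by
        rw [← Real.rpow_add hr0, ← Real.rpow_add hr0]
        congr 3
        ring
  have ha0 : (0 : ℝ) < a := by exact_mod_cast ha
  have hb0 : (0 : ℝ) < b := by exact_mod_cast hb
  have hla : 0 ≤ Real.log (a : ℝ) := Real.log_natCast_nonneg a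
  have hlb : 0 ≤ Real.log (b : ℝ) := Real.log_natCast_nonneg b
  have hlac : Real.log a ≤ Real.log ((a + b : ℕ) : ℝ) := by
    apply Real.log_le_log ha0
    push_cast
    linarith
  have hlbc : Real.log b ≤ Real.log ((a + b : ℕ) : ℝ) := by
    apply Real.log_le_log hb0
    push_cast
    linarith
  have hlab : Real.log a ≤ Real.log b := Real.log_le_log ha0 (by exact_mod_cast hab)
  have hlc : Real.log ((a + b : ℕ) : ℝ) ≤ Real.log 2 + Real.log b := by
    rw [← Real.log_mul (by norm_num) hb0.ne']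
    apply Real.log_le_log
    · push_cast
      linarith
    · have : (a : ℝ) ≤ b := by exact_mod_cast hab
      push_cast
      linarith
  have hlog2 := Real.log_two_lt_d9
  by_cases hA : ht (a, b) / 9 < ∑ p ∈ U, (a.factorization p : ℝ) * Real.log p
  · refine key a (a + b) b ha (by omega) hb hbc.symm ⟨1, by push_cast; ring⟩ ?_ ?_ ?_ hA
    · rw [hht]; linarith
    · rw [hht]; linarith
    · rw [hN, show (a + b) * b * a = a * b * (a + b) by ring]
  by_cases hB : ht (a, b) / 9 < ∑ p ∈ U, (b.factorization p : ℝ) * Real.log p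
  · refine key b (a + b) a hb (by omega) ha hac.symm ⟨1, by push_cast; ring⟩ ?_ ?_ ?_ hB
    · rw [hht]; linarith
    · rw [hht]; linarith
    · rw [hN, show (a + b) * a * b = a * b * (a + b) by ring]
  have hC : ht (a, b) / 9 < ∑ p ∈ U, ((a + b).factorization p : ℝ) * Real.log p := by
    push Not at hA hB
    rw [hsum] at hlight
    linarith
  refine key (a + b) (b ^ 2) (a ^ 2) (by omega) (by positivity) (by positivity)
    (Nat.Coprime.pow 2 2 hcop.symm) ⟨(b : ℤ) - a, by push_cast; ring⟩ ?_ ?_ ?_ hC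
  · push_cast
    rw [hht, Real.log_pow, Real.log_pow]
    push_cast at hlac hlbc ⊢
    linarith
  · have h1 : Real.log ((a + b : ℕ) : ℝ) ≥ 1000 := by rw [← hht]; exact hbig
    rw [hht]
    push_cast at hlc h1 ⊢
    rw [Real.log_pow, Real.log_pow]
    push_cast
    linarith
  · rw [hN]
    have h1 : (b ^ 2 * a ^ 2 * (a + b)).primeFactors = (b * a * (a + b)).primeFactors := by
      rw [Nat.primeFactors_mul (by positivity) (by positivity),
        Nat.primeFactors_mul (by positivity) (by positivity), Nat.primeFactors_pow _ two_ne_zero,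
        Nat.primeFactors_pow _ two_ne_zero, Nat.primeFactors_mul (by positivity) (by positivity),
        Nat.primeFactors_mul (by positivity) (by positivity)]
    rw [h1, mul_comm b a]

end Pool.Agent.Lib.AbcH
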