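import Mathlib
import Pool.Agent.Lib.AbcH.Light

/-!
# Counting the tall triples composed of the primes of `r`
-/

namespace Pool.Agent.Lib.AbcH

open Finset Pool.Agent.Lib.Pabc2

theorem Acon_pos' : 0 < Acon := by
  unfold Acon
  positivity

theorem count_pairs {κ : ℕ} (hκ : κ ≤ 2) (hE : ThmE2 κ) (η : ℝ) (hη : 0 < η) : ∃ K : ℝ, 0 < K ∧
    ∀ (r : ℕ) (S : Finset ℕ) (P : ℝ) (T : Finset (ℕ × ℕ)), 0 < r → 1 ≤ P →
      (∀ p ∈ r.primeFactors, p ∉ S → (p : ℝ) ≤ P) →
      (∀ t ∈ T, IsT t ∧ (N t).primeFactors ⊆ r.primeFactors ∧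
        K * (r : ℝ) ^ (3 * η) * P ^ κ < ht t) →
      (T.card : ℝ) ≤ 909 * (1 + Acon) ^ S.card ∧ (S = ∅ → T = ∅) := by
  classical
  obtain ⟨K, hK, hL⟩ := light hκ hE η hη
  refine ⟨K + 1000, by linarith, ?_⟩
  intro r S P T hr hP hPS hT
  have hr1 : (1 : ℝ) ≤ r := by exact_mod_cast hr
  have hgood : ∀ t ∈ T, Good (S ∩ (N t).primeFactors) t := by
    intro t ht'
    obtain ⟨hI, hsub, hbig⟩ := hT t ht'
    have e1 : (1 : ℝ) ≤ (r : ℝ) ^ (3 * η) := Real.one_le_rpow hr1 (by positivity)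
    have e2 : (1 : ℝ) ≤ (r : ℝ) ^ (3 * η) * P ^ κ :=
      one_le_mul_of_one_le_of_one_le e1 (one_le_pow₀ hP)
    have e3 : (K + 1000) * (r : ℝ) ^ (3 * η) * P ^ κ =
        K * (r : ℝ) ^ (3 * η) * P ^ κ + 1000 * ((r : ℝ) ^ (3 * η) * P ^ κ) := by ring
    rw [e3] at hbig
    have e4 : 0 < K * (r : ℝ) ^ (3 * η) * P ^ κ := by positivity
    have hb : 1000 ≤ ht t := by linarith
    have hlt : K * (r : ℝ) ^ (3 * η) * P ^ κ < ht t := by linarith
    have hh := ht_pos hI
    have hnl : ∑ p ∈ (N t).primeFactors \ S, (ex t p : ℝ) * Real.log p ≤ ht t / 3 := by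
      by_contra hcon
      push Not at hcon
      have := hL r S P t hr hP hI hsub hPS hb hcon
      linarith
    refine ⟨hI, Finset.inter_subset_right, ?_, hb⟩
    have h1 := sum_u_eq hI
    have h2 : ∑ p ∈ (N t).primeFactors \ S, u t p + ∑ p ∈ S ∩ (N t).primeFactors, u t p =
        ∑ p ∈ (N t).primeFactors, u t p := by
      rw [Finset.inter_comm, add_comm]
      exact Finset.sum_inter_add_sum_sdiff _ _ _
    have h3 : ∑ p ∈ (N t).primeFactors \ S, u t p ≤ 1 / 3 := by
      unfold u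
      rw [← Finset.sum_div, div_le_iff₀ hh]
      linarith
    linarith
  constructor
  · have h1 := card_le_sum_of_good T S.powerset (fun t => S ∩ (N t).primeFactors)
      (fun t _ => Finset.mem_powerset.2 Finset.inter_subset_left) hgood
    have h2 : ∑ S' ∈ S.powerset, Acon ^ S'.card = (1 + Acon) ^ S.card := by
      rw [add_comm, ← Finset.sum_pow_mul_eq_add_pow]
      simp
    rwa [h2] at h1
  · rintro rfl
    rw [Finset.eq_empty_iff_forall_notMem]
    intro t ht'
    have g := hgood t ht'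
    have hm := g.mass
    rw [Finset.empty_inter, Finset.sum_empty] at hm
    have hh := ht_pos g.h
    have ha : 0 ≤ Real.log (t.1 : ℝ) := Real.log_natCast_nonneg _
    have hb : 0 ≤ Real.log (t.2 : ℝ) := Real.log_natCast_nonneg _
    have h1 : 1 ≤ (Real.log t.1 + Real.log t.2 + ht t) / ht t := by
      rw [le_div_iff₀ hh]
      linarith
    linarith

/-- `(a, b, c)` is an abc-triple. -/
def AbcTriple (a b c : ℕ) : Prop := 0 < a ∧ 0 < b ∧ a + b = c ∧ Nat.Coprime a b

/-- the abc-triples composed of primes dividing `r` with `log c > B` -/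
def high (r : ℕ) (B : ℝ) : Set (ℕ × ℕ × ℕ) :=
  {t | AbcTriple t.1 t.2.1 t.2.2 ∧ (∀ p : ℕ, p.Prime → p ∣ t.1 * t.2.1 * t.2.2 → p ∣ r) ∧
    B < Real.log t.2.2}

theorem finite_of_card_le {α : Type*} (s : Set α) (n : ℕ)
    (h : ∀ F : Finset α, (↑F : Set α) ⊆ s → F.card ≤ n) : s.Finite ∧ s.ncard ≤ n := by
  have hf : s.Finite := by
    by_contra hinf
    obtain ⟨F, hF, hc⟩ := Set.Infinite.exists_subset_card_eq hinf (n + 1)
    have := h F hF
    omega
  refine ⟨hf, ?_⟩
  rw [Set.ncard_eq_toFinset_card s hf]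
  apply h
  simp

theorem primeFactors_sub {a b c r : ℕ} (ha : 0 < a) (hb : 0 < b) (hr : 0 < r) (hc : a + b = c)
    (h : ∀ p : ℕ, p.Prime → p ∣ a * b * c → p ∣ r) : (N (a, b)).primeFactors ⊆ r.primeFactors := by
  intro p hp
  have hN : N (a, b) = a * b * c := by rw [← hc]; rfl
  rw [hN, Nat.mem_primeFactors] at hp
  rw [Nat.mem_primeFactors]
  exact ⟨hp.1, h p hp.1 hp.2.1, hr.ne'⟩

/-- the constant -/
noncomputable def C1 : ℝ := 2000 * (1 + Acon)

theorem one_lt_C1 : 2 ≤ C1 := by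
  unfold C1
  have := Acon_pos'
  linarith

/-- Tall triples composed of the primes of `r`; `S` is an arbitrary finite set and `P` bounds the
prime factors of `r` outside `S`. -/
theorem count_high {κ : ℕ} (hκ : κ ≤ 2) (hE : ThmE2 κ) (η : ℝ) (hη : 0 < η) : ∃ K : ℝ, 0 < K ∧
    ∀ (r : ℕ) (S : Finset ℕ) (P : ℝ), 0 < r → 1 ≤ P →
      (∀ p ∈ r.primeFactors, p ∉ S → (p : ℝ) ≤ P) →
      (high r (K * (r : ℝ) ^ (3 * η) * P ^ κ)).Finite ∧
      ((high r (K * (r : ℝ) ^ (3 * η) * P ^ κ)).ncard : ℝ) + 1 ≤ C1 ^ S.card := by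
  classical
  obtain ⟨K, hK, hc⟩ := count_pairs hκ hE η hη
  refine ⟨K, hK, ?_⟩
  intro r S P hr hP hPS
  set B := K * (r : ℝ) ^ (3 * η) * P ^ κ with hB
  -- every finite subset is small
  have main : ∀ F : Finset (ℕ × ℕ × ℕ), (↑F : Set (ℕ × ℕ × ℕ)) ⊆ high r B →
      (F.card : ℝ) ≤ 2 * (909 * (1 + Acon) ^ S.card) ∧ (S = ∅ → F = ∅) := by
    intro F hF
    set F1 := F.filter (fun t => t.1 ≤ t.2.1) with hF1
    set F2 := F.filter (fun t => ¬ t.1 ≤ t.2.1) with hF2
    set T1 := F1.image (fun t => (t.1, t.2.1)) with hT1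
    set T2 := F2.image (fun t => (t.2.1, t.1)) with hT2
    have c1 : T1.card = F1.card := by
      apply Finset.card_image_of_injOn
      intro t ht' s hs hts
      have h1 := (hF (Finset.mem_of_mem_filter _ ht')).1.2.2.1
      have h2 := (hF (Finset.mem_of_mem_filter _ hs)).1.2.2.1
      simp only [Prod.mk.injEq] at hts
      ext
      · exact hts.1
      · exact hts.2
      · rw [← h1, ← h2, hts.1, hts.2]
    have c2 : T2.card = F2.card := by
      apply Finset.card_image_of_injOn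
      intro t ht' s hs hts
      have h1 := (hF (Finset.mem_of_mem_filter _ ht')).1.2.2.1
      have h2 := (hF (Finset.mem_of_mem_filter _ hs)).1.2.2.1
      simp only [Prod.mk.injEq] at hts
      ext
      · exact hts.2
      · exact hts.1
      · rw [← h1, ← h2, hts.1, hts.2]
    have g1 : ∀ t ∈ T1, IsT t ∧ (N t).primeFactors ⊆ r.primeFactors ∧
        K * (r : ℝ) ^ (3 * η) * P ^ κ < ht t := by
      intro t ht'
      rw [hT1, Finset.mem_image] at ht'
      obtain ⟨s, hs, rfl⟩ := ht'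
      rw [hF1, Finset.mem_filter] at hs
      obtain ⟨⟨ha, hb, habc, hcop⟩, hdiv, hlt⟩ := hF hs.1
      refine ⟨⟨ha, hs.2, hcop⟩, primeFactors_sub ha hb hr habc hdiv, ?_⟩
      rw [hB] at hlt
      unfold ht
      have : ((s.1 : ℝ) + (s.2.1 : ℝ)) = (s.2.2 : ℝ) := by exact_mod_cast habc
      simp only
      rw [this]
      exact hlt
    have g2 : ∀ t ∈ T2, IsT t ∧ (N t).primeFactors ⊆ r.primeFactors ∧
        K * (r : ℝ) ^ (3 * η) * P ^ κ < ht t := by
      intro t ht'
      rw [hT2, Finset.mem_image] at ht'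
      obtain ⟨s, hs, rfl⟩ := ht'
      rw [hF2, Finset.mem_filter] at hs
      obtain ⟨⟨ha, hb, habc, hcop⟩, hdiv, hlt⟩ := hF hs.1
      refine ⟨⟨hb, (not_le.1 hs.2).le, hcop.symm⟩, primeFactors_sub (c := s.2.2) hb ha hr (by omega) ?_, ?_⟩
      · intro p hp hpd
        apply hdiv p hp
        rwa [mul_comm s.1 s.2.1]
      · rw [hB] at hlt
        unfold ht
        have : ((s.2.1 : ℝ) + (s.1 : ℝ)) = (s.2.2 : ℝ) := by
          rw [add_comm]
          exact_mod_cast habc
        simp only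
        rw [this]
        exact hlt
    obtain ⟨a1, b1⟩ := hc r S P T1 hr hP hPS g1
    obtain ⟨a2, b2⟩ := hc r S P T2 hr hP hPS g2
    have hcard : F1.card + F2.card = F.card :=
      Finset.card_filter_add_card_filter_not _
    constructor
    · rw [c1] at a1
      rw [c2] at a2
      rw [← hcard]
      push_cast
      linarith
    · intro hS
      have d1 := b1 hS
      have d2 := b2 hS
      rw [← Finset.card_eq_zero, ← hcard, ← c1, ← c2, d1, d2]
      simp
  have hA := Acon_pos'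
  have hn := finite_of_card_le (high r B) ⌊2 * (909 * (1 + Acon) ^ S.card)⌋₊ (by
    intro F hF
    exact Nat.le_floor (main F hF).1)
  refine ⟨hn.1, ?_⟩
  by_cases hS : S = ∅
  · have h0 : (high r B) = ∅ := by
      by_contra hne
      obtain ⟨t, ht'⟩ := Set.nonempty_iff_ne_empty.2 hne
      have := (main {t} (by simpa using ht')).2 hS
      simp at this
    rw [h0, hS]
    simp
  · have hk : 1 ≤ S.card := Finset.card_pos.2 (Finset.nonempty_iff_ne_empty.2 hS)
    have h1 : ((high r B).ncard : ℝ) ≤ 2 * (909 * (1 + Acon) ^ S.card) := by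
      refine le_trans ?_ (Nat.floor_le (by positivity))
      exact_mod_cast hn.2
    have h2 : (1 : ℝ) ≤ (1 + Acon) ^ S.card := one_le_pow₀ (by linarith)
    have h3 : (2000 : ℝ) ≤ 2000 ^ S.card := by
      calc (2000 : ℝ) = 2000 ^ 1 := (pow_one _).symm
        _ ≤ 2000 ^ S.card := pow_le_pow_right₀ (by norm_num) hk
    calc ((high r B).ncard : ℝ) + 1 ≤ 2000 * (1 + Acon) ^ S.card := by linarith
      _ ≤ 2000 ^ S.card * (1 + Acon) ^ S.card := by gcongr
      _ = C1 ^ S.card := by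
        unfold C1
        rw [mul_pow]

end Pool.Agent.Lib.AbcH
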