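import Mathlib
import Pool.Agent.Lib.AbcH.Count

/-!
# The decay law for the tallest triples composed of the primes of `r`
-/

namespace Pool.Agent.Lib.AbcH

open Finset

theorem high_anti (r : ℕ) {B B' : ℝ} (h : B ≤ B') : high r B' ⊆ high r B := by
  rintro t ⟨h1, h2, h3⟩
  exact ⟨h1, h2, lt_of_le_of_lt h h3⟩

/-- the prime factors of `r` exceeding `r ^ (1 / (k + 1))` are at most `k` in number -/
theorem card_large (r k : ℕ) (hr : 0 < r) :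
    (r.primeFactors.filter (fun p : ℕ => (r : ℝ) ^ (1 / ((k : ℝ) + 1)) < p)).card ≤ k := by
  by_contra hcon
  push Not at hcon
  set S := r.primeFactors.filter (fun p : ℕ => (r : ℝ) ^ (1 / ((k : ℝ) + 1)) < p) with hS
  have hr1 : (1 : ℝ) ≤ r := by exact_mod_cast hr
  have hr0 : (0 : ℝ) < r := by linarith
  set x := (r : ℝ) ^ (1 / ((k : ℝ) + 1)) with hx
  have hx1 : 1 ≤ x := Real.one_le_rpow hr1 (by positivity)
  obtain ⟨U, hUS, hUc⟩ := Finset.exists_subset_card_eq (Nat.succ_le_of_lt hcon)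
  have h1 : ∏ p ∈ U, (p : ℝ) ≤ r :=
    prod_primeFactors_le hr (hUS.trans (Finset.filter_subset _ _))
  have hUne : U.Nonempty := by
    rw [← Finset.card_pos, hUc]
    omega
  have h2 : ∏ _p ∈ U, x < ∏ p ∈ U, (p : ℝ) := by
    apply Finset.prod_lt_prod_of_nonempty
    · intro p _
      linarith
    · intro p hp
      exact (Finset.mem_filter.1 (hUS hp)).2
    · exact hUne
  rw [Finset.prod_const, hUc, hx, ← Real.rpow_natCast, ← Real.rpow_mul hr0.le] at h2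
  have h3 : 1 / ((k : ℝ) + 1) * ((k + 1 : ℕ) : ℝ) = 1 := by
    push_cast
    field_simp
  rw [h3, Real.rpow_one] at h2
  linarith

/-- The table: exponent `κ / (k + 1) + ε` outside fewer than `C1 ^ k` triples. -/
theorem table {κ : ℕ} (hκ : κ ≤ 2) (hE : ThmE2 κ) (ε : ℝ) (hε : 0 < ε) : ∃ K : ℝ, 0 < K ∧
    ∀ r k : ℕ, 0 < r →
      (high r (K * (r : ℝ) ^ ((κ : ℝ) / ((k : ℝ) + 1) + ε))).Finite ∧
      ((high r (K * (r : ℝ) ^ ((κ : ℝ) / ((k : ℝ) + 1) + ε))).ncard : ℝ) < C1 ^ k := by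
  classical
  obtain ⟨K, hK, hc⟩ := count_high hκ hE (ε / 3) (by positivity)
  refine ⟨K, hK, ?_⟩
  intro r k hr
  have hr1 : (1 : ℝ) ≤ r := by exact_mod_cast hr
  have hr0 : (0 : ℝ) < r := by linarith
  have h1 := hc r (r.primeFactors.filter (fun p : ℕ => (r : ℝ) ^ (1 / ((k : ℝ) + 1)) < p))
    ((r : ℝ) ^ (1 / ((k : ℝ) + 1))) hr (Real.one_le_rpow hr1 (by positivity)) (by
      intro p hp hpS
      by_contra hcon
      push Not at hcon
      exact hpS (Finset.mem_filter.2 ⟨hp, hcon⟩))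
  have h2 : K * (r : ℝ) ^ (3 * (ε / 3)) * ((r : ℝ) ^ (1 / ((k : ℝ) + 1))) ^ κ =
      K * (r : ℝ) ^ ((κ : ℝ) / ((k : ℝ) + 1) + ε) := by
    rw [← Real.rpow_natCast, ← Real.rpow_mul hr0.le, mul_assoc, ← Real.rpow_add hr0]
    congr 2
    field_simp
    ring
  rw [h2] at h1
  refine ⟨h1.1, ?_⟩
  have h3 : C1 ^ (r.primeFactors.filter (fun p : ℕ => (r : ℝ) ^ (1 / ((k : ℝ) + 1)) < p)).card ≤
      C1 ^ k := pow_le_pow_right₀ (by have := one_lt_C1; linarith) (card_large r k hr)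
  linarith [h1.2]

/-- **Decay law**: the `n`-th largest abc-triple composed of primes of `r`. -/
theorem decay {κ : ℕ} (hκ : κ ≤ 2) (hE : ThmE2 κ) : ∃ C : ℝ, 0 < C ∧ ∀ ε : ℝ, 0 < ε →
    ∃ K : ℝ, 0 < K ∧ ∀ r n : ℕ, 0 < r → 0 < n →
      (high r (K * (r : ℝ) ^ (C / Real.log ((n : ℝ) + 1) + ε))).Finite ∧
      (high r (K * (r : ℝ) ^ (C / Real.log ((n : ℝ) + 1) + ε))).ncard < n := by
  have hC1 := one_lt_C1
  have hl2 : Real.log 2 ≤ Real.log C1 := Real.log_le_log (by norm_num) hC1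
  have hl20 : 0 < Real.log 2 := Real.log_pos (by norm_num)
  have hlC : 0 < Real.log C1 := by linarith
  refine ⟨4 * Real.log C1, by positivity, ?_⟩
  intro ε hε
  obtain ⟨K, hK, ht⟩ := table hκ hE ε hε
  refine ⟨K, hK, ?_⟩
  intro r n hr hn
  have hr1 : (1 : ℝ) ≤ r := by exact_mod_cast hr
  have hn1 : (1 : ℝ) ≤ n := by exact_mod_cast hn
  have hn0 : (0 : ℝ) < n := by linarith
  set k : ℕ := ⌊Real.log n / Real.log C1⌋₊ with hk
  have hln : 0 ≤ Real.log n := Real.log_nonneg hn1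
  have h1 : (k : ℝ) * Real.log C1 ≤ Real.log n := by
    have := Nat.floor_le (div_nonneg hln hlC.le)
    rwa [← hk, le_div_iff₀ hlC] at this
  have h2 : Real.log n < ((k : ℝ) + 1) * Real.log C1 := by
    have := Nat.lt_floor_add_one (Real.log n / Real.log C1)
    rwa [← hk, div_lt_iff₀ hlC] at this
  have h3 : C1 ^ k ≤ n := by
    rw [← Real.log_le_log_iff (by positivity) hn0, Real.log_pow]
    exact h1
  have hk0 : (0 : ℝ) ≤ k := Nat.cast_nonneg _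
  have hln1 : 0 < Real.log ((n : ℝ) + 1) := Real.log_pos (by linarith)
  have h4 : (κ : ℝ) / ((k : ℝ) + 1) ≤ 4 * Real.log C1 / Real.log ((n : ℝ) + 1) := by
    have e1 : Real.log ((n : ℝ) + 1) ≤ Real.log 2 + Real.log n := by
      rw [← Real.log_mul (by norm_num) hn0.ne']
      apply Real.log_le_log (by linarith)
      linarith
    have e2 : Real.log ((n : ℝ) + 1) ≤ 2 * (((k : ℝ) + 1) * Real.log C1) := by nlinarith
    have e3 : (κ : ℝ) ≤ 2 := by exact_mod_cast hκ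
    rw [div_le_div_iff₀ (by linarith) hln1]
    have e4 : (κ : ℝ) * Real.log ((n : ℝ) + 1) ≤ 2 * Real.log ((n : ℝ) + 1) :=
      mul_le_mul_of_nonneg_right e3 hln1.le
    linarith
  have h5 : K * (r : ℝ) ^ ((κ : ℝ) / ((k : ℝ) + 1) + ε) ≤
      K * (r : ℝ) ^ (4 * Real.log C1 / Real.log ((n : ℝ) + 1) + ε) := by
    apply mul_le_mul_of_nonneg_left _ hK.le
    apply Real.rpow_le_rpow_of_exponent_le hr1
    linarith
  obtain ⟨t1, t2⟩ := ht r k hr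
  have hsub := high_anti r h5
  refine ⟨t1.subset hsub, ?_⟩
  have h6 : (high r (K * (r : ℝ) ^ (4 * Real.log C1 / Real.log ((n : ℝ) + 1) + ε))).ncard ≤
      (high r (K * (r : ℝ) ^ ((κ : ℝ) / ((k : ℝ) + 1) + ε))).ncard :=
    Set.ncard_le_ncard hsub t1
  have h7 : ((high r (K * (r : ℝ) ^ (4 * Real.log C1 / Real.log ((n : ℝ) + 1) + ε))).ncard : ℝ) <
      n := by
    have h6' : ((high r (K * (r : ℝ) ^ (4 * Real.log C1 / Real.log ((n : ℝ) + 1) + ε))).ncard : ℝ) ≤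
      ((high r (K * (r : ℝ) ^ ((κ : ℝ) / ((k : ℝ) + 1) + ε))).ncard : ℝ) := by exact_mod_cast h6
    linarith
  exact_mod_cast h7

/-- finitely many triples with bounded `c` -/
theorem finite_low (B : ℝ) : ∃ n : ℕ, ∀ r : ℕ,
    ({t : ℕ × ℕ × ℕ | AbcTriple t.1 t.2.1 t.2.2 ∧
      (∀ p : ℕ, p.Prime → p ∣ t.1 * t.2.1 * t.2.2 → p ∣ r) ∧ Real.log t.2.2 ≤ B}).Finite ∧
    ({t : ℕ × ℕ × ℕ | AbcTriple t.1 t.2.1 t.2.2 ∧
      (∀ p : ℕ, p.Prime → p ∣ t.1 * t.2.1 * t.2.2 → p ∣ r) ∧ Real.log t.2.2 ≤ B}).ncard ≤ n := by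
  classical
  set m := ⌊Real.exp B⌋₊ + 1 with hm
  refine ⟨(Finset.range m ×ˢ Finset.range m ×ˢ Finset.range m).card, ?_⟩
  intro r
  have hsub : {t : ℕ × ℕ × ℕ | AbcTriple t.1 t.2.1 t.2.2 ∧
      (∀ p : ℕ, p.Prime → p ∣ t.1 * t.2.1 * t.2.2 → p ∣ r) ∧ Real.log t.2.2 ≤ B} ⊆
      (↑(Finset.range m ×ˢ Finset.range m ×ˢ Finset.range m) : Set (ℕ × ℕ × ℕ)) := by
    rintro ⟨a, b, c⟩ ⟨⟨ha, hb, hc, _⟩, _, hB⟩
    simp only at ha hb hc hB
    have hc0 : 0 < c := by omega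
    have hc1 : (c : ℝ) ≤ Real.exp B := by
      rwa [Real.log_le_iff_le_exp (by exact_mod_cast hc0)] at hB
    have hc2 : c ≤ ⌊Real.exp B⌋₊ := Nat.le_floor hc1
    simp only [Finset.coe_product, Set.mem_prod, Finset.coe_range, Set.mem_Iio]
    refine ⟨by omega, by omega, by omega⟩
  refine ⟨(Finset.finite_toSet _).subset hsub, ?_⟩
  have h := Set.ncard_le_ncard hsub (Finset.finite_toSet _)
  rwa [Set.ncard_coe_finset] at h

/-- For every `ε` there is `C` such that for every `r` all but at most `C` of the abc-triples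
composed of primes of `r` satisfy `c < exp (r ^ ε)`. -/
theorem few {κ : ℕ} (hκ : κ ≤ 2) (hE : ThmE2 κ) (ε : ℝ) (hε : 0 < ε) : ∃ C : ℕ,
    ∀ r : ℕ, 0 < r →
      ({t : ℕ × ℕ × ℕ | AbcTriple t.1 t.2.1 t.2.2 ∧
        (∀ p : ℕ, p.Prime → p ∣ t.1 * t.2.1 * t.2.2 → p ∣ r) ∧
        Real.exp ((r : ℝ) ^ ε) ≤ t.2.2}).Finite ∧
      ({t : ℕ × ℕ × ℕ | AbcTriple t.1 t.2.1 t.2.2 ∧
        (∀ p : ℕ, p.Prime → p ∣ t.1 * t.2.1 * t.2.2 → p ∣ r) ∧
        Real.exp ((r : ℝ) ^ ε) ≤ t.2.2}).ncard ≤ C := by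
  classical
  obtain ⟨K, hK, ht⟩ := table hκ hE (ε / 4) (by positivity)
  obtain ⟨k, hk⟩ : ∃ k : ℕ, 2 / ((k : ℝ) + 1) ≤ ε / 4 := by
    obtain ⟨k, hk⟩ := exists_nat_ge (8 / ε)
    refine ⟨k, ?_⟩
    have hk0 : (0 : ℝ) ≤ k := Nat.cast_nonneg _
    rw [div_le_iff₀ (by linarith)]
    rw [div_le_iff₀ hε] at hk
    nlinarith
  have hκ2 : (κ : ℝ) ≤ 2 := by exact_mod_cast hκ
  -- threshold
  obtain ⟨r0, hr0⟩ : ∃ r0 : ℕ, ∀ r : ℕ, r0 ≤ r → 0 < r → K * (r : ℝ) ^ (ε / 2) < (r : ℝ) ^ ε := by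
    have hlim : Filter.Tendsto (fun r : ℕ => ((r : ℕ) : ℝ) ^ (ε / 2)) Filter.atTop Filter.atTop :=
      (tendsto_rpow_atTop (by positivity)).comp tendsto_natCast_atTop_atTop
    obtain ⟨r0, hr0⟩ := Filter.eventually_atTop.1 (hlim.eventually_gt_atTop K)
    refine ⟨r0, ?_⟩
    intro r hr hrpos
    have h1 := hr0 r hr
    have hrR : (0 : ℝ) < r := by exact_mod_cast hrpos
    have h2 : (r : ℝ) ^ ε = (r : ℝ) ^ (ε / 2) * (r : ℝ) ^ (ε / 2) := by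
      rw [← Real.rpow_add hrR]
      congr 1
      ring
    rw [h2]
    have h3 : 0 < (r : ℝ) ^ (ε / 2) := Real.rpow_pos_of_pos hrR _
    exact mul_lt_mul_of_pos_right h1 h3
  obtain ⟨n0, hn0⟩ := finite_low (K * ((r0 : ℝ) + 1) ^ ((κ : ℝ) / ((k : ℝ) + 1) + ε / 4))
  refine ⟨⌈C1 ^ k⌉₊ + n0, ?_⟩
  intro r hr
  have hr1 : (1 : ℝ) ≤ r := by exact_mod_cast hr
  have hrR : (0 : ℝ) < r := by linarith
  obtain ⟨t1, t2⟩ := ht r k hr
  obtain ⟨l1, l2⟩ := hn0 r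
  set A := {t : ℕ × ℕ × ℕ | AbcTriple t.1 t.2.1 t.2.2 ∧
        (∀ p : ℕ, p.Prime → p ∣ t.1 * t.2.1 * t.2.2 → p ∣ r) ∧
        Real.exp ((r : ℝ) ^ ε) ≤ t.2.2} with hA
  set H := high r (K * (r : ℝ) ^ ((κ : ℝ) / ((k : ℝ) + 1) + ε / 4)) with hH
  set Lw := {t : ℕ × ℕ × ℕ | AbcTriple t.1 t.2.1 t.2.2 ∧
      (∀ p : ℕ, p.Prime → p ∣ t.1 * t.2.1 * t.2.2 → p ∣ r) ∧
      Real.log t.2.2 ≤ K * ((r0 : ℝ) + 1) ^ ((κ : ℝ) / ((k : ℝ) + 1) + ε / 4)} with hLw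
  have hsub : A ⊆ H ∪ Lw := by
    rintro ⟨a, b, c⟩ ⟨habc, hdiv, hbig⟩
    by_cases hrr : r0 ≤ r
    · left
      refine ⟨habc, hdiv, ?_⟩
      simp only at hbig ⊢
      have h1 : (r : ℝ) ^ ε ≤ Real.log c := by
        have h2 := Real.log_le_log (Real.exp_pos _) hbig
        rwa [Real.log_exp] at h2
      refine lt_of_le_of_lt ?_ (lt_of_lt_of_le (hr0 r hrr hr) h1)
      apply mul_le_mul_of_nonneg_left _ hK.le
      apply Real.rpow_le_rpow_of_exponent_le hr1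
      have h3 : (κ : ℝ) / ((k : ℝ) + 1) ≤ 2 / ((k : ℝ) + 1) := by gcongr
      linarith
    · by_cases hlow : Real.log c ≤ K * ((r0 : ℝ) + 1) ^ ((κ : ℝ) / ((k : ℝ) + 1) + ε / 4)
      · right
        exact ⟨habc, hdiv, hlow⟩
      · left
        refine ⟨habc, hdiv, ?_⟩
        push Not at hlow hrr
        refine lt_of_le_of_lt ?_ hlow
        apply mul_le_mul_of_nonneg_left _ hK.le
        apply Real.rpow_le_rpow hrR.le
        · have : (r : ℝ) < r0 := by exact_mod_cast hrr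
          linarith
        · positivity
  refine ⟨(t1.union l1).subset hsub, ?_⟩
  calc A.ncard ≤ (H ∪ Lw).ncard := Set.ncard_le_ncard hsub (t1.union l1)
    _ ≤ H.ncard + Lw.ncard := Set.ncard_union_le _ _
    _ ≤ ⌈C1 ^ k⌉₊ + n0 := by
      apply Nat.add_le_add _ l2
      have h1 : (H.ncard : ℝ) ≤ (⌈C1 ^ k⌉₊ : ℝ) := t2.le.trans (Nat.le_ceil _)
      exact_mod_cast h1

end Pool.Agent.Lib.AbcH
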