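import Mathlib
import Pool.Agent.Lib.AbcE.TheoremE

/-!
# Theorem E2: an effective height bound for `S`-units congruent to `1` modulo `M`

The same method as for Theorem E, with a loss `exp (η * Λ)` (`Λ` at least the logarithm of the
product of the primes) instead of `n ^ n`.
-/

namespace Pool.Agent.Lib.AbcH

open Finset Pool.Agent.AbcE

variable {ι : Type*} [Fintype ι]

/-- **Theorem E2**. -/
theorem theoremE2 (p : ι → ℕ) (hp : ∀ i, (p i).Prime) (hinj : Function.Injective p)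
    (e : ι → ℤ) (M : ℕ) (hM : 0 < M) (hcop : ∀ i, (p i).Coprime M)
    (hdvd : (M : ℤ) ∣ (posP p e : ℤ) - negP p e) (A Q : ℕ) (hA : 1 ≤ A) (hQ : 2 ≤ Q)
    (X : ℝ) (hX1 : 1 ≤ X) (hXL : ∑ i, Real.log (p i) ≤ Q * X)
    (h4 : ∑ i, (|e i| : ℝ) * Real.log (p i) ≤ A * Real.log M) :
    ∑ i, (|e i| : ℝ) * Real.log (p i) ≤
      10 ^ 10 * A ^ 4 * X * ((∏ q ∈ M.primeFactors, q : ℕ) : ℝ) ^ 2 *
        Real.exp (120000 * A ^ 2 * X) * (Q : ℝ) ^ (2 * Fintype.card ι) := by
  classical
  by_contra hcon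
  have hcon := not_le.1 hcon
  set h : ℝ := ∑ i, (|e i| : ℝ) * Real.log (p i) with hh
  set R : ℝ := ((∏ q ∈ M.primeFactors, q : ℕ) : ℝ) with hR
  set L : ℝ := ∑ i, Real.log (p i) with hL
  have hpos : ∀ i, 0 < p i := fun i => (hp i).pos
  have hlp : ∀ i, 0 < Real.log (p i) := fun i =>
    Real.log_pos (by exact_mod_cast (hp i).one_lt)
  have hR1 : 1 ≤ R := by
    rw [hR]
    exact_mod_cast Nat.succ_le_of_lt
      (Finset.prod_pos fun q hq => (Nat.prime_of_mem_primeFactors hq).pos)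
  have hL0 : 0 ≤ L := Finset.sum_nonneg fun i _ => (hlp i).le
  have hA1 : (1 : ℝ) ≤ A := by exact_mod_cast hA
  have hA0 : (0 : ℝ) < A := by linarith
  have hQ2 : (2 : ℝ) ≤ Q := by exact_mod_cast hQ
  have hQ0 : (0 : ℝ) < Q := by linarith
  have hX0 : (0 : ℝ) < X := by linarith
  set P : ℝ := (Q : ℝ) ^ Fintype.card ι with hP
  have hP1 : 1 ≤ P := one_le_pow₀ (by linarith)
  have hPP : (Q : ℝ) ^ (2 * Fintype.card ι) = P ^ 2 := by
    rw [hP, ← pow_mul, mul_comm]
  rw [hPP] at hcon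
  set W : ℝ := Real.exp (60000 * A ^ 2 * X) with hW
  have hWW : Real.exp (120000 * A ^ 2 * X) = W ^ 2 := by
    rw [hW, ← Real.exp_nat_mul]
    congr 1
    push_cast
    ring
  rw [hWW] at hcon
  have hW1 : 1 ≤ W := Real.one_le_exp (by positivity)
  have hhbig : 10 ^ 10 * A ^ 4 * X * 1 < h := by
    refine lt_of_le_of_lt ?_ hcon
    have e1 : (1 : ℝ) ≤ R ^ 2 := one_le_pow₀ hR1
    have e2 : (1 : ℝ) ≤ P ^ 2 := one_le_pow₀ hP1
    have e3 : (1 : ℝ) ≤ W ^ 2 := one_le_pow₀ hW1
    calc (10 : ℝ) ^ 10 * A ^ 4 * X * 1 = 10 ^ 10 * A ^ 4 * X * 1 * 1 * 1 := by ring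
      _ ≤ _ := by gcongr
  rw [mul_one] at hhbig
  have hA2 : (1 : ℝ) ≤ A ^ 2 := one_le_pow₀ hA1
  have hA4 : (A : ℝ) ^ 2 ≤ A ^ 4 := pow_le_pow_right₀ hA1 (by norm_num)
  have hA2X : (1 : ℝ) ≤ A ^ 2 * X := one_le_mul_of_one_le_of_one_le hA2 hX1
  have hh0 : 0 < h := lt_trans (by positivity) hhbig
  have hhbig2 : 10 ^ 10 * (A ^ 2 * X) < h := by
    refine lt_of_le_of_lt ?_ hhbig
    nlinarith [mul_le_mul_of_nonneg_right hA4 hX0.le]
  -- `e ≠ 0`
  have he0 : ∃ i, e i ≠ 0 := by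
    by_contra hc
    have hc' : ∀ i, e i = 0 := fun i => by_contra fun h => hc ⟨i, h⟩
    have : h = 0 := by
      rw [hh]
      refine Finset.sum_eq_zero ?_
      intro i _
      rw [hc' i]
      simp
    linarith
  -- `N`
  set N : ℕ := ⌊h / (28800 * (A ^ 2 * X))⌋₊ with hN
  have hk0 : (0 : ℝ) < 28800 * (A ^ 2 * X) := by positivity
  have hNle : (N : ℝ) ≤ h / (28800 * (A ^ 2 * X)) := Nat.floor_le (by positivity)
  have hNle' : (N : ℝ) * (28800 * (A ^ 2 * X)) ≤ h := by rwa [le_div_iff₀ hk0] at hNle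
  have hNlt : h / (28800 * (A ^ 2 * X)) < (N : ℝ) + 1 := Nat.lt_floor_add_one _
  have hNlt' : h < ((N : ℝ) + 1) * (28800 * (A ^ 2 * X)) := by rwa [div_lt_iff₀ hk0] at hNlt
  have hN4 : (100000 : ℝ) ≤ N := by
    have h1 : (100001 : ℝ) * (28800 * (A ^ 2 * X)) < h := by
      refine lt_of_le_of_lt ?_ hhbig2
      nlinarith
    have h2 : (100001 : ℝ) * (28800 * (A ^ 2 * X)) < ((N : ℝ) + 1) * (28800 * (A ^ 2 * X)) :=
      h1.trans hNlt'
    have h3 := lt_of_mul_lt_mul_right h2 hk0.le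
    linarith
  have hNpos : 0 < N := by
    have : (0 : ℝ) < N := by linarith
    exact_mod_cast this
  have hhN : h ≤ N * (30000 * (A ^ 2 * X)) := by
    nlinarith
  -- size of `M`
  have hneZ := posP_ne_negP hp hinj e he0
  have hMmax : M ≤ max (posP p e) (negP p e) :=
    natAbs_sub_lt_max _ _ (posP_pos hpos e) (negP_pos hpos e) hneZ M hdvd
  have hMR : (0 : ℝ) < M := by exact_mod_cast hM
  have hlogM : Real.log M ≤ h := by
    refine (Real.log_le_log hMR ?_).trans (log_max_le hpos e)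
    exact_mod_cast hMmax
  -- `M0`
  obtain ⟨M0, hM0, hMM0, hM0le, hM0cop⟩ := exists_M0 M N hM hNpos
  have hM0R : (0 : ℝ) < M0 := by exact_mod_cast hM0
  have hlogM0 : (N : ℝ) * Real.log M0 ≤ h + N * Real.log R := by
    have h1 : ((M0 : ℝ)) ^ N ≤ M * R ^ N := by
      rw [hR]
      exact_mod_cast hM0le
    have h2 := Real.log_le_log (by positivity) h1
    rw [Real.log_mul hMR.ne' (by positivity), Real.log_pow, Real.log_pow] at h2
    linarith
  have hNR : (0 : ℝ) < N := by exact_mod_cast hNpos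
  have hM0e : (M0 : ℝ) ≤ W * R := by
    have h1 : Real.log M0 ≤ 60000 * A ^ 2 * X + Real.log R := by
      have h2 : (N : ℝ) * Real.log M0 ≤ N * (60000 * A ^ 2 * X + Real.log R) := by
        have : h ≤ N * (60000 * A ^ 2 * X) := by nlinarith
        linarith
      exact le_of_mul_le_mul_left h2 hNR
    have h3 : (M0 : ℝ) = Real.exp (Real.log M0) := (Real.exp_log hM0R).symm
    rw [h3]
    calc Real.exp (Real.log M0) ≤ Real.exp (60000 * A ^ 2 * X + Real.log R) :=
          Real.exp_le_exp.2 h1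
      _ = W * R := by rw [Real.exp_add, Real.exp_log (by linarith), hW]
  have hQpos : 0 < Q := by omega
  obtain ⟨γ, hγ0, hγle, f, hf, hfM⟩ := pigeon p M0 hM0 (fun i => hM0cop _ (hcop i)) e N hNpos
    (fun _ => Q) (fun _ => hQpos)
  set G : ℕ := M0 * ∏ _i : ι, Q with hG
  have hGpos : 0 < G := Nat.mul_pos hM0 (Finset.prod_pos fun i _ => hQpos)
  have hG1 : (1 : ℝ) ≤ G := by exact_mod_cast hGpos
  have hGle : (G : ℝ) ≤ W * R * P := by
    rw [hG, Finset.prod_const, Finset.card_univ]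
    push_cast
    rw [← hP]
    exact mul_le_mul_of_nonneg_right hM0e (by linarith)
  have hG2 : (G : ℝ) ^ 2 ≤ (W * R * P) ^ 2 := by gcongr
  -- `N` is large compared to `G ^ 2`
  have hNG : (400 * (A : ℝ) * G) ^ 2 ≤ (N : ℝ) := by
    have h1 : 10 ^ 10 * A ^ 4 * X * (G : ℝ) ^ 2 < h := by
      refine lt_of_le_of_lt ?_ hcon
      calc 10 ^ 10 * A ^ 4 * X * (G : ℝ) ^ 2 ≤ 10 ^ 10 * A ^ 4 * X * (W * R * P) ^ 2 := by
            gcongr
        _ = _ := by ring
    have h2 : 10 ^ 10 * A ^ 4 * X * (G : ℝ) ^ 2 < N * (30000 * (A ^ 2 * X)) := h1.trans_le hhN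
    have h3 : (10 ^ 10 / 30000 * A ^ 2 * (G : ℝ) ^ 2) * (30000 * (A ^ 2 * X)) <
        N * (30000 * (A ^ 2 * X)) := by
      refine lt_of_eq_of_lt ?_ h2
      ring
    have h4 := lt_of_mul_lt_mul_right h3 (by positivity)
    have h5 : (400 * (A : ℝ) * G) ^ 2 = 160000 * A ^ 2 * (G : ℝ) ^ 2 := by ring
    rw [h5]
    refine le_trans ?_ h4.le
    gcongr
    norm_num
  have hGR : (0 : ℝ) < G := by linarith
  -- `r`
  set r : ℕ := N / γ with hr
  have hr1 : γ * r ≤ N := Nat.mul_div_le N γ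
  have hr2 : N < γ * (r + 1) := Nat.lt_mul_div_succ N hγ0
  have hr1R : (γ : ℝ) * r ≤ N := by exact_mod_cast hr1
  have hr2R : (N : ℝ) < γ * (r + 1) := by exact_mod_cast hr2
  have hγR : (0 : ℝ) < γ := by exact_mod_cast hγ0
  have hγG : (γ : ℝ) ≤ G := by exact_mod_cast hγle
  have hγ1 : (1 : ℝ) ≤ γ := by exact_mod_cast hγ0
  have hrN : r ≤ N := Nat.div_le_self _ _
  have hrNR : (r : ℝ) ≤ N := by exact_mod_cast hrN
  -- `r + 1` is at least `400 A √N` and at least `160000 A²`
  have hrs : (400 * (A : ℝ)) ^ 2 * N ≤ ((r : ℝ) + 1) ^ 2 := by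
    have h1 : (N : ℝ) < G * (r + 1) := hr2R.trans_le (by gcongr)
    have h2 : (400 * (A : ℝ) * G) ^ 2 * (N : ℝ) ≤ N * N := by gcongr
    have h3 : (N : ℝ) * N ≤ (G * (r + 1)) ^ 2 := by
      rw [pow_two]
      gcongr
    have h4 : (G : ℝ) ^ 2 * ((400 * (A : ℝ)) ^ 2 * N) ≤ (G : ℝ) ^ 2 * ((r : ℝ) + 1) ^ 2 := by
      calc (G : ℝ) ^ 2 * ((400 * (A : ℝ)) ^ 2 * N) = (400 * (A : ℝ) * G) ^ 2 * (N : ℝ) := by ring
        _ ≤ (N : ℝ) * N := h2
        _ ≤ (G * (r + 1)) ^ 2 := h3
        _ = _ := by ring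
    exact le_of_mul_le_mul_left h4 (by positivity)
  have hNA : (400 * (A : ℝ)) ^ 2 ≤ N := by
    refine le_trans ?_ hNG
    have : 400 * (A : ℝ) ≤ 400 * A * G := by nlinarith only [hG1, hA0]
    gcongr
  have hrbig : 160000 * (A : ℝ) ≤ (r : ℝ) + 1 := by
    have h1 : (160000 * (A : ℝ)) ^ 2 ≤ ((r : ℝ) + 1) ^ 2 := by
      refine le_trans ?_ hrs
      have h2 : (160000 : ℝ) ≤ N := by nlinarith only [hNA, hA1]
      calc (160000 * (A : ℝ)) ^ 2 = (400 * (A : ℝ)) ^ 2 * 160000 := by ring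
        _ ≤ _ := by gcongr
    exact le_of_sq_le_sq h1 (by positivity)
  have hr0 : (0 : ℝ) < r := by nlinarith only [hrbig, hA1]
  have hrpos : 0 < r := by exact_mod_cast hr0
  have hrs2 : (300 * (A : ℝ)) ^ 2 * N ≤ (r : ℝ) ^ 2 := by
    have h1 : (r : ℝ) + 1 ≤ 4 / 3 * r := by nlinarith only [hrbig, hA1]
    have h2 : ((r : ℝ) + 1) ^ 2 ≤ (4 / 3 * r) ^ 2 := by gcongr
    nlinarith only [h2, hrs]
  -- heights
  have hkey : ∀ i, |(γ : ℝ) * e i - N * f i| ≤ N / Q := by
    intro i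
    have h1 : |(γ : ℝ) * e i - N * f i| * Q < N := by exact_mod_cast hf i
    rw [le_div_iff₀ hQ0]
    exact h1.le
  have hfi : ∀ i, |(f i : ℝ)| ≤ 2 * (|(e i : ℝ)| / r) := by
    intro i
    by_cases h0 : f i = 0
    · rw [h0]
      simp only [Int.cast_zero, abs_zero]
      positivity
    have hf1 : (1 : ℝ) ≤ |(f i : ℝ)| := by
      have := Int.one_le_abs h0
      exact_mod_cast this
    have h3 : (N : ℝ) * |(f i : ℝ)| ≤ γ * |(e i : ℝ)| + N / Q := by
      have e1 : (N : ℝ) * |(f i : ℝ)| = |(γ : ℝ) * e i - (γ * e i - N * f i)| := by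
        rw [sub_sub_cancel, abs_mul, abs_of_pos hNR]
      have e2 : |(γ : ℝ) * e i - (γ * e i - N * f i)| ≤ |(γ : ℝ) * e i| + |(γ : ℝ) * e i - N * f i| :=
        abs_sub _ _
      have e3 : |(γ : ℝ) * e i| = γ * |(e i : ℝ)| := by rw [abs_mul, abs_of_pos hγR]
      have := hkey i
      linarith
    have h4 : (N : ℝ) / Q ≤ N / 2 := by gcongr
    have h5 : (N : ℝ) * |(f i : ℝ)| ≤ 2 * (γ * |(e i : ℝ)|) := by
      have : (N : ℝ) * 1 ≤ N * |(f i : ℝ)| := by gcongr
      linarith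
    have h6 : (r : ℝ) * (N * |(f i : ℝ)|) ≤ N * (2 * |(e i : ℝ)|) := by
      calc (r : ℝ) * (N * |(f i : ℝ)|) ≤ r * (2 * (γ * |(e i : ℝ)|)) := by gcongr
        _ = (γ * r) * (2 * |(e i : ℝ)|) := by ring
        _ ≤ N * (2 * |(e i : ℝ)|) := by gcongr
    have h7 : (N : ℝ) * (r * |(f i : ℝ)|) ≤ N * (2 * |(e i : ℝ)|) := by
      calc (N : ℝ) * (r * |(f i : ℝ)|) = r * (N * |(f i : ℝ)|) := by ring
        _ ≤ _ := h6
    have h8 := le_of_mul_le_mul_left h7 hNR
    rw [mul_div_assoc', le_div_iff₀ hr0]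
    linarith
  have hβ : ∑ i, (|f i| : ℝ) * Real.log (p i) ≤ 2 * (h / r) := by
    calc ∑ i, (|f i| : ℝ) * Real.log (p i)
        ≤ ∑ i, (2 * (|(e i : ℝ)| / r)) * Real.log (p i) := by
          refine Finset.sum_le_sum fun i _ => ?_
          exact mul_le_mul_of_nonneg_right (hfi i) (hlp i).le
      _ = 2 * (h / r) := by
          rw [hh, Finset.sum_div, Finset.mul_sum]
          refine Finset.sum_congr rfl fun i _ => ?_
          ring
  set a : ι → ℤ := fun i => e i - r * f i with ha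
  have hai : ∀ i, |(a i : ℝ)| ≤ |(e i : ℝ)| / r + r / Q := by
    intro i
    have h3 : (N : ℝ) * a i = e i * (N - r * γ) + r * (γ * e i - N * f i) := by
      rw [ha]
      push_cast
      ring
    have h4 : (N : ℝ) * |(a i : ℝ)| ≤ |(e i : ℝ)| * γ + r * (N / Q) := by
      have e1 : (N : ℝ) * |(a i : ℝ)| = |(N : ℝ) * a i| := by rw [abs_mul, abs_of_pos hNR]
      rw [e1, h3]
      refine (abs_add_le _ _).trans ?_
      rw [abs_mul, abs_mul, abs_of_pos hr0]
      have e2 : |(N : ℝ) - r * γ| ≤ γ := by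
        rw [abs_of_nonneg (by linarith only [hr1R])]
        linarith only [hr2R]
      have e3 := abs_nonneg (e i : ℝ)
      have e4 := hkey i
      gcongr
    have h5 : |(e i : ℝ)| * γ ≤ N * (|(e i : ℝ)| / r) := by
      rw [mul_div_assoc', le_div_iff₀ hr0]
      have := abs_nonneg (e i : ℝ)
      nlinarith only [this, hr1R]
    have h6 : (N : ℝ) * |(a i : ℝ)| ≤ N * (|(e i : ℝ)| / r + r / Q) := by
      have e2 : (r : ℝ) * (N / Q) = N * (r / Q) := by ring
      rw [mul_add]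
      linarith
    exact le_of_mul_le_mul_left h6 hNR
  have hα : ∑ i, (|a i| : ℝ) * Real.log (p i) ≤ h / r + r * X := by
    calc ∑ i, (|a i| : ℝ) * Real.log (p i)
        ≤ ∑ i, (|(e i : ℝ)| / r + r / Q) * Real.log (p i) := by
          refine Finset.sum_le_sum fun i _ => ?_
          exact mul_le_mul_of_nonneg_right (hai i) (hlp i).le
      _ = h / r + r / Q * L := by
          rw [hh, hL, Finset.sum_div, Finset.mul_sum, ← Finset.sum_add_distrib]
          refine Finset.sum_congr rfl fun i _ => ?_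
          ring
      _ ≤ h / r + r / Q * (Q * X) := by gcongr
      _ = h / r + r * X := by
          congr 1
          field_simp
  -- `f ≠ 0`
  have hf0 : ∃ i, f i ≠ 0 := by
    by_contra hc
    have hc' : ∀ i, f i = 0 := fun i => by_contra fun h => hc ⟨i, h⟩
    have h1 : ∀ i, |(e i : ℝ)| ≤ N / Q := by
      intro i
      have h2 := hkey i
      rw [hc' i, Int.cast_zero, mul_zero, sub_zero, abs_mul, abs_of_pos hγR] at h2
      have h3 := abs_nonneg (e i : ℝ)
      nlinarith only [h2, h3, hγ1]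
    have h2 : h ≤ N * X := by
      calc h ≤ ∑ i, (N / Q : ℝ) * Real.log (p i) := by
            rw [hh]
            refine Finset.sum_le_sum fun i _ => ?_
            exact mul_le_mul_of_nonneg_right (h1 i) (hlp i).le
        _ = N / Q * L := by rw [hL, Finset.mul_sum]
        _ ≤ N / Q * (Q * X) := by gcongr
        _ = N * X := by field_simp
    have h3 : (N : ℝ) * X ≤ N * (A ^ 2 * X) := by
      have : 1 * X ≤ A ^ 2 * X := by gcongr
      rw [one_mul] at this
      gcongr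
    nlinarith only [h2, h3, hNle', hh0]
  have hneB := posP_ne_negP hp hinj f hf0
  set B1 := posP p f with hB1
  set B2 := negP p f with hB2
  set A1 := posP p a with hA1'
  set A2 := negP p a with hA2'
  have hlogB : Real.log ((max B1 B2 : ℕ) : ℝ) ≤ 2 * (h / r) := (log_max_le hpos f).trans hβ
  have hlogA : Real.log ((max A1 A2 : ℕ) : ℝ) ≤ h / r + r * X := (log_max_le hpos a).trans hα
  -- `D`, `d`
  set D : ℕ := r / (120 * A) with hD
  set d : ℕ := 4 * N / (D + 1) with hd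
  have hA120 : 0 < 120 * A := by omega
  have hD1 : (120 * A) * D ≤ r := Nat.mul_div_le _ _
  have hD2 : r < (120 * A) * (D + 1) := Nat.lt_mul_div_succ _ hA120
  have hD40 : 40 ≤ D := by
    rw [hD, Nat.le_div_iff_mul_le hA120]
    have h1 : (40 : ℝ) * (120 * A) ≤ r := by nlinarith only [hrbig, hA1]
    exact_mod_cast h1
  have hd1 : d * (D + 1) ≤ 4 * N := Nat.div_mul_le_self _ _
  have hd2 : 4 * N < (D + 1) * (d + 1) := Nat.lt_mul_div_succ _ (by omega)
  have h33 : 41 * d ≤ 4 * N := by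
    have : 41 ≤ D + 1 := by omega
    calc 41 * d ≤ (D + 1) * d := Nat.mul_le_mul_right _ this
      _ = d * (D + 1) := by ring
      _ ≤ 4 * N := hd1
  have hx : (D + 1) * (d + 1) ≤ 4 * N + (D + 1) := by
    have : (D + 1) * (d + 1) = d * (D + 1) + (D + 1) := by ring
    omega
  have hDr' : 120 * D ≤ r := by
    have h1 : 120 * D ≤ (120 * A) * D := by
      have : 120 ≤ 120 * A := by omega
      exact Nat.mul_le_mul_right _ this
    exact h1.trans hD1
  have hDN : 120 * D ≤ N := hDr'.trans hrN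
  have hDr : D < r := by omega
  refine core r D d N 6 M M0 B1 B2 A1 A2 (posP_pos hpos f) (negP_pos hpos f) (posP_pos hpos a)
    (negP_pos hpos a) hDr (by omega) hMM0 hfM hneB ?_ (posP_coprime hcop f).symm
    (negP_coprime hcop a).symm ?_ ?_
  · -- congruence
    have hcr := cross hpos e a f r (fun i => by rw [ha]; ring)
    have h1 : (A1 : ℤ) * B1 ^ r * negP p e = A2 * B2 ^ r * posP p e := by exact_mod_cast hcr
    have h2 : ((A1 : ℤ) * B1 ^ r - A2 * B2 ^ r) * negP p e
        = A2 * B2 ^ r * ((posP p e : ℤ) - negP p e) := by linear_combination h1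
    have h3 : (M : ℤ) ∣ ((A1 : ℤ) * B1 ^ r - A2 * B2 ^ r) * negP p e := by
      rw [h2]
      exact hdvd.mul_left _
    have h4 : IsCoprime (M : ℤ) (negP p e : ℤ) :=
      Nat.isCoprime_iff_coprime.2 (negP_coprime hcop e).symm
    exact h4.dvd_of_dvd_mul_right h3
  · -- size
    have hB1R : 0 < B1 := posP_pos hpos f
    have hA1R : 0 < A1 := posP_pos hpos a
    have hmB : 0 < max B1 B2 := lt_max_of_lt_left hB1R
    have hmA : 0 < max A1 A2 := lt_max_of_lt_left hA1R
    have hmBR : (0 : ℝ) < ((max B1 B2 : ℕ) : ℝ) := by exact_mod_cast hmB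
    have hmAR : (0 : ℝ) < ((max A1 A2 : ℕ) : ℝ) := by exact_mod_cast hmA
    have hxpos : (0 : ℝ) < (((D + 1) * (d + 1) : ℕ) : ℝ) := by
      exact_mod_cast (by positivity : 0 < (D + 1) * (d + 1))
    have hgoal : ((((D + 1) * (d + 1) : ℕ) : ℝ)) ^ 2 * (4 : ℝ) ^ (D + d * r) *
        ((max B1 B2 : ℕ) : ℝ) ^ (6 * D) * ((max A1 A2 : ℕ) : ℝ) ^ (6 * d) < (M : ℝ) := by
      rw [← Real.log_lt_log_iff (by positivity) hMR]
      rw [Real.log_mul (by positivity) (by positivity), Real.log_mul (by positivity) (by positivity),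
        Real.log_mul (by positivity) (by positivity), Real.log_pow, Real.log_pow, Real.log_pow,
        Real.log_pow]
      push_cast
      have hD1R : 120 * (A : ℝ) * D ≤ r := by exact_mod_cast hD1
      have hD2R : (r : ℝ) ≤ 120 * A * (D + 1) := by exact_mod_cast hD2.le
      have hd1R : (d : ℝ) * (D + 1) ≤ 4 * N := by exact_mod_cast hd1
      have hxR : ((D : ℝ) + 1) * (d + 1) ≤ 4 * N + (D + 1) := by exact_mod_cast hx
      have hDNR : 120 * (D : ℝ) ≤ N := by exact_mod_cast hDN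
      have hD0 : (0 : ℝ) ≤ D := Nat.cast_nonneg _
      have hd0 : (0 : ℝ) ≤ d := Nat.cast_nonneg _
      have hdr : (d : ℝ) * r ≤ 480 * (A * N) := by
        calc (d : ℝ) * r ≤ d * (120 * A * (D + 1)) := mul_le_mul_of_nonneg_left hD2R hd0
          _ = 120 * A * (d * (D + 1)) := by ring
          _ ≤ 120 * A * (4 * N) := by gcongr
          _ = 480 * (A * N) := by ring
      -- everything is compared with `V = h / A`
      set V : ℝ := h / A with hV
      have hVA : h = A * V := by rw [hV]; field_simp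
      have hV0 : 0 < V := by positivity
      have hAN : (A : ℝ) * N * X * 28800 ≤ V := by
        have h1 : (A : ℝ) * (A * N * X * 28800) ≤ A * V := by
          rw [← hVA]
          calc (A : ℝ) * (A * N * X * 28800) = N * (28800 * (A ^ 2 * X)) := by ring
            _ ≤ h := hNle'
        exact le_of_mul_le_mul_left h1 hA0
      have hANX : (A : ℝ) * N ≤ A * N * X := by
        have : (A : ℝ) * N * 1 ≤ A * N * X := by gcongr
        linarith
      have hNAN : (N : ℝ) ≤ A * N := by nlinarith only [hA1, hNR]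
      have t1 : 2 * Real.log (((D : ℝ) + 1) * (d + 1)) ≤ 10 * N := by
        have h1 : (0 : ℝ) < ((D : ℝ) + 1) * (d + 1) := by positivity
        have h2 := Real.log_le_sub_one_of_pos h1
        linarith
      have t2 : ((D : ℝ) + d * r) * Real.log 4 ≤ 700 * (A * N) := by
        have h1 : Real.log 4 ≤ 1.4 := by
          have h2 : Real.log 4 = 2 * Real.log 2 := by
            rw [show (4 : ℝ) = 2 ^ 2 from by norm_num, Real.log_pow]
            norm_num
          have := Real.log_two_lt_d9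
          rw [h2]; linarith
        have h3 : (0 : ℝ) ≤ (D : ℝ) + d * r := by positivity
        calc ((D : ℝ) + d * r) * Real.log 4 ≤ ((D : ℝ) + d * r) * 1.4 :=
              mul_le_mul_of_nonneg_left h1 h3
          _ ≤ (N / 120 + 480 * (A * N)) * 1.4 := by
              have : (D : ℝ) ≤ N / 120 := by linarith
              gcongr
          _ ≤ 700 * (A * N) := by linarith
      have t3 : 6 * (D : ℝ) * Real.log (max (B1 : ℝ) (B2 : ℝ)) ≤ V / 10 := by
        have hcast : (max (B1 : ℝ) (B2 : ℝ)) = ((max B1 B2 : ℕ) : ℝ) := by push_cast; rfl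
        rw [hcast]
        have h1 : 6 * (D : ℝ) * Real.log ((max B1 B2 : ℕ) : ℝ) ≤ 6 * D * (2 * (h / r)) :=
          mul_le_mul_of_nonneg_left hlogB (by positivity)
        have h2 : (D : ℝ) * (h / r) ≤ V / 120 := by
          rw [mul_div_assoc', div_le_div_iff₀ hr0 (by norm_num), hVA]
          nlinarith only [hD1R, hV0]
        linarith only [h1, h2]
      have t4 : 6 * (d : ℝ) * Real.log (max (A1 : ℝ) (A2 : ℝ)) ≤ V / 10 + V / 10 := by
        have hcast : (max (A1 : ℝ) (A2 : ℝ)) = ((max A1 A2 : ℕ) : ℝ) := by push_cast; rfl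
        rw [hcast]
        have h1 : 6 * (d : ℝ) * Real.log ((max A1 A2 : ℕ) : ℝ) ≤ 6 * d * (h / r + r * X) :=
          mul_le_mul_of_nonneg_left hlogA (by positivity)
        have h2 : 6 * (d : ℝ) * (r * X) ≤ V / 10 := by
          have : (d : ℝ) * r * X ≤ 480 * (A * N) * X := by gcongr
          nlinarith only [this, hAN]
        have h3 : 6 * (d : ℝ) * (h / r) ≤ V / 10 := by
          have h4 : (d : ℝ) * (h / r) = (d * r) * h / r ^ 2 := by
            field_simp
          have h5 : (d : ℝ) * (h / r) ≤ V / 60 := by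
            rw [h4, div_le_div_iff₀ (by positivity) (by norm_num)]
            have h6 : (d : ℝ) * r * h * 60 ≤ 480 * (A * N) * h * 60 := by gcongr
            have h7 : 480 * ((A : ℝ) * N) * h * 60 ≤ V * ((300 * A) ^ 2 * N) := by
              rw [hVA]
              have : 0 ≤ V * (A ^ 2 * N) := by positivity
              nlinarith only [this]
            calc (d : ℝ) * r * h * 60 ≤ _ := h6
              _ ≤ V * ((300 * A) ^ 2 * N) := h7
              _ ≤ V * (r : ℝ) ^ 2 := by gcongr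
          linarith only [h5]
        linarith only [h1, h2, h3]
      have t5 : V ≤ Real.log M := by
        rw [hV, div_le_iff₀ hA0, mul_comm]
        exact h4
      nlinarith only [t1, t2, t3, t4, t5, hAN, hANX, hNAN, hV0, hNR]
    exact_mod_cast hgoal
  · -- zero estimate inequality
    have h1 : (d + 1) * D + (d + 1) = (D + 1) * (d + 1) := by ring
    omega

end Pool.Agent.Lib.AbcH
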