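import Mathlib
import Pool.Agent.Lib.AbcH.ThmE2
import Pool.Agent.Lib.Pabc9.FromE

/-!
# Theorem E2 for integers: the loss is an arbitrarily small power of the radical
-/

namespace Pool.Agent.Lib.AbcH

open Finset Pool.Agent.AbcE

/-- `B ^ |S|` is at most a constant times a small power of the product of the elements of `S`. -/
theorem pow_card_le (B δ : ℝ) (hB : 1 ≤ B) (hδ : 0 < δ) : ∃ K : ℝ, 1 ≤ K ∧
    ∀ S : Finset ℕ, (∀ p ∈ S, 1 ≤ p) → B ^ S.card ≤ K * (∏ p ∈ S, (p : ℝ)) ^ δ := by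
  obtain ⟨T, hT⟩ := exists_nat_ge (B ^ (1 / δ))
  refine ⟨B ^ T, one_le_pow₀ hB, fun S hS => ?_⟩
  have hB0 : 0 < B := by linarith
  have h1 : ∀ p ∈ S, B ≤ (if p < T then B else 1) * (p : ℝ) ^ δ := by
    intro p hp
    have hp1 : (1 : ℝ) ≤ p := by exact_mod_cast hS p hp
    split_ifs with h
    · exact le_mul_of_one_le_right hB0.le (Real.one_le_rpow hp1 hδ.le)
    · rw [one_mul]
      have h2 : B ^ (1 / δ) ≤ p := hT.trans (by exact_mod_cast not_lt.1 h)
      have h3 := Real.rpow_le_rpow (by positivity) h2 hδ.le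
      rwa [← Real.rpow_mul hB0.le, one_div_mul_cancel hδ.ne', Real.rpow_one] at h3
  calc B ^ S.card = ∏ _p ∈ S, B := by rw [Finset.prod_const]
    _ ≤ ∏ p ∈ S, (if p < T then B else 1) * (p : ℝ) ^ δ :=
        Finset.prod_le_prod (fun _ _ => hB0.le) h1
    _ = (∏ p ∈ S, if p < T then B else 1) * ∏ p ∈ S, (p : ℝ) ^ δ := Finset.prod_mul_distrib
    _ = B ^ (S.filter (· < T)).card * (∏ p ∈ S, (p : ℝ)) ^ δ := by
        rw [Finset.prod_ite, Finset.prod_const, Finset.prod_const_one, mul_one,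
          Real.finsetProd_rpow _ _ (fun p _ => Nat.cast_nonneg p)]
    _ ≤ B ^ T * (∏ p ∈ S, (p : ℝ)) ^ δ := by
        have h2 : (S.filter (· < T)).card ≤ T := by
          calc (S.filter (· < T)).card ≤ (Finset.range T).card := by
                apply Finset.card_le_card
                intro p hp
                rw [Finset.mem_filter] at hp
                exact Finset.mem_range.2 hp.2
            _ = T := Finset.card_range T
        have h3 : 0 ≤ (∏ p ∈ S, (p : ℝ)) ^ δ :=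
          Real.rpow_nonneg (Finset.prod_nonneg fun p _ => Nat.cast_nonneg p) _
        gcongr

/-- **Theorem E2** for integers. -/
theorem thmE2 (A η : ℝ) (hA : 1 ≤ A) (hη : 0 < η) : ∃ K : ℝ, 0 < K ∧ ∀ Z1 Z2 M : ℕ,
    0 < Z1 → 0 < Z2 → Nat.Coprime Z1 Z2 → 0 < M → (M : ℤ) ∣ (Z1 : ℤ) - Z2 →
    Real.log Z1 + Real.log Z2 ≤ A * Real.log M →
    Real.log Z1 + Real.log Z2 ≤ K * (∏ p ∈ M.primeFactors, (p : ℝ)) ^ 2 *
      (∏ p ∈ (Z1 * Z2 * M).primeFactors, (p : ℝ)) ^ η := by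
  obtain ⟨A', hA'⟩ := exists_nat_ge A
  have hA'1 : (1 : ℝ) ≤ A' := hA.trans hA'
  have hA'n : 1 ≤ A' := by exact_mod_cast hA'1
  obtain ⟨Q0, hQ0⟩ := exists_nat_ge (240002 * (A' : ℝ) ^ 2 / η)
  set Q : ℕ := Q0 + 2 with hQ
  have hQ2 : 2 ≤ Q := by omega
  have hQR : 240002 * (A' : ℝ) ^ 2 / η ≤ Q := by
    refine hQ0.trans ?_
    rw [hQ]; push_cast; linarith
  have hQpos : (0 : ℝ) < Q := by
    have : (2 : ℝ) ≤ Q := by exact_mod_cast hQ2
    linarith
  have hQη : 120001 * (A' : ℝ) ^ 2 / Q ≤ η / 2 := by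
    rw [div_le_iff₀ hη] at hQR
    rw [div_le_iff₀ hQpos]
    linarith
  have hQ1 : (1 : ℝ) ≤ (Q : ℝ) ^ 2 := by
    have : (2 : ℝ) ≤ Q := by exact_mod_cast hQ2
    exact one_le_pow₀ (by linarith)
  obtain ⟨K2, hK2, hcard⟩ := pow_card_le ((Q : ℝ) ^ 2) (η / 2) hQ1 (by positivity)
  set K1 : ℝ := 10 ^ 10 * (A' : ℝ) ^ 4 * Real.exp (120001 * (A' : ℝ) ^ 2) with hK1
  have hK10 : 0 < K1 := by positivity
  refine ⟨K1 * K2, by positivity, ?_⟩
  intro Z1 Z2 M h1 h2 hcop hM hdvd h4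
  set S := (Z1 * Z2).primeFactors with hS
  set r : ℝ := ∏ p ∈ (Z1 * Z2 * M).primeFactors, (p : ℝ) with hr
  set R : ℝ := ∏ p ∈ M.primeFactors, (p : ℝ) with hR
  have hZ0 : Z1 * Z2 * M ≠ 0 := by positivity
  have hS1 : Z1.primeFactors ⊆ S := Nat.primeFactors_mono (Dvd.intro _ rfl) (by positivity)
  have hS2 : Z2.primeFactors ⊆ S := Nat.primeFactors_mono (Dvd.intro_left _ rfl) (by positivity)
  have hSp : ∀ q ∈ S, q.Prime := fun q hq => Nat.prime_of_mem_primeFactors hq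
  have hSr : S ⊆ (Z1 * Z2 * M).primeFactors := Nat.primeFactors_mono (Dvd.intro _ rfl) hZ0
  have hprodS : ∏ p ∈ S, (p : ℝ) ≤ r := by
    rw [hr, ← Nat.cast_prod, ← Nat.cast_prod]
    exact_mod_cast Finset.prod_le_prod_of_subset_of_one_le' hSr
      (fun q hq _ => (Nat.prime_of_mem_primeFactors hq).one_le)
  have hprodS1 : 1 ≤ ∏ p ∈ S, (p : ℝ) := by
    rw [← Nat.cast_prod]
    exact_mod_cast Nat.succ_le_of_lt (Finset.prod_pos fun q hq => (hSp q hq).pos)
  have hr1 : 1 ≤ r := hprodS1.trans hprodS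
  have hr0 : 0 < r := by linarith
  have hR0 : 0 ≤ R := Finset.prod_nonneg fun p _ => Nat.cast_nonneg p
  -- one of the two exponents vanishes
  have hz : ∀ q, Z1.factorization q = 0 ∨ Z2.factorization q = 0 := by
    intro q
    by_contra hcon
    push Not at hcon
    have a1 : q ∈ Z1.primeFactors := by
      rw [← Nat.support_factorization, Finsupp.mem_support_iff]; exact hcon.1
    have a2 : q ∈ Z2.primeFactors := by
      rw [← Nat.support_factorization, Finsupp.mem_support_iff]; exact hcon.2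
    exact Finset.disjoint_left.1 (Nat.Coprime.disjoint_primeFactors hcop) a1 a2
  set e : {q // q ∈ S} → ℤ := fun q => (Z1.factorization q : ℤ) - Z2.factorization q with he
  have hpos : ∀ q, (e q).toNat = Z1.factorization q := by
    intro q
    rcases hz q with h | h <;> simp only [he] <;> omega
  have hneg : ∀ q, (-e q).toNat = Z2.factorization q := by
    intro q
    rcases hz q with h | h <;> simp only [he] <;> omega
  have habs : ∀ q, |((e q : ℤ) : ℝ)| = (Z1.factorization q : ℝ) + Z2.factorization q := by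
    intro q
    simp only [he]
    rcases hz q with h | h
    · rw [h]
      push_cast
      rw [zero_sub, abs_neg, abs_of_nonneg (Nat.cast_nonneg _), zero_add]
    · rw [h]
      push_cast
      rw [sub_zero, abs_of_nonneg (Nat.cast_nonneg _), add_zero]
  have hsum : ∑ q : {q // q ∈ S}, |((e q : ℤ) : ℝ)| * Real.log (q : ℕ) =
      Real.log Z1 + Real.log Z2 := by
    simp only [habs, add_mul]
    rw [Finset.sum_add_distrib, Pool.Agent.Lib.Pabc9.sum_log_eq h1.ne' hS1 hSp,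
      Pool.Agent.Lib.Pabc9.sum_log_eq h2.ne' hS2 hSp]
  have hcopM : ∀ q : {q // q ∈ S}, (q : ℕ).Coprime M := by
    rintro ⟨q, hq⟩
    have hqp := hSp q hq
    rw [Nat.Prime.coprime_iff_not_dvd hqp]
    intro hqM
    have hqd : (q : ℤ) ∣ (Z1 : ℤ) - Z2 := (Int.natCast_dvd_natCast.2 hqM).trans hdvd
    have hq12 : q ∣ Z1 * Z2 := Nat.dvd_of_mem_primeFactors hq
    rcases (Nat.Prime.dvd_mul hqp).1 hq12 with h' | h'
    · have : (q : ℤ) ∣ (Z2 : ℤ) := by
        have := dvd_sub (Int.natCast_dvd_natCast.2 h') hqd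
        simpa using this
      have h2' := Int.natCast_dvd_natCast.1 this
      exact Nat.not_coprime_of_dvd_of_dvd hqp.one_lt h' h2' hcop
    · have : (q : ℤ) ∣ (Z1 : ℤ) := by
        have := dvd_add hqd (Int.natCast_dvd_natCast.2 h')
        simpa using this
      have h1' := Int.natCast_dvd_natCast.1 this
      exact Nat.not_coprime_of_dvd_of_dvd hqp.one_lt h1' h' hcop
  -- the parameter `X`
  set Λ : ℝ := Real.log r with hΛ
  have hΛ0 : 0 ≤ Λ := Real.log_nonneg hr1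
  set X : ℝ := 1 + Λ / Q with hX
  have hX1 : 1 ≤ X := by
    have : 0 ≤ Λ / Q := by positivity
    linarith
  have hlogS : ∑ q : {q // q ∈ S}, Real.log (q : ℕ) ≤ Q * X := by
    rw [Finset.sum_coe_sort S (fun q : ℕ => Real.log (q : ℕ))]
    have h5 : ∑ q ∈ S, Real.log (q : ℝ) = Real.log (∏ p ∈ S, (p : ℝ)) := by
      rw [Real.log_prod]
      intro q hq
      have := (hSp q hq).pos
      positivity
    have h6 : Real.log (∏ p ∈ S, (p : ℝ)) ≤ Λ := Real.log_le_log (by linarith) hprodS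
    rw [h5]
    have h7 : Q * X = Q + Λ := by
      rw [hX]
      field_simp
    linarith
  have key := theoremE2 (ι := {q // q ∈ S}) (fun q => (q : ℕ)) (fun q => hSp q q.2)
    Subtype.val_injective e M hM hcopM (by
      unfold posP negP
      simp only [hpos, hneg]
      rw [Pool.Agent.Lib.Pabc9.prod_pow_eq h1.ne' hS1, Pool.Agent.Lib.Pabc9.prod_pow_eq h2.ne' hS2]
      exact hdvd) A' Q hA'n hQ2 X hX1 hlogS (by
      rw [hsum]
      refine h4.trans ?_
      have : 0 ≤ Real.log M := Real.log_natCast_nonneg M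
      gcongr)
  rw [hsum] at key
  refine key.trans ?_
  rw [Fintype.card_coe]
  push_cast
  rw [← hR]
  have b1 : X * Real.exp (120000 * (A' : ℝ) ^ 2 * X) ≤
      Real.exp (120001 * (A' : ℝ) ^ 2) * r ^ (η / 2) := by
    have hA2 : (1 : ℝ) ≤ (A' : ℝ) ^ 2 := one_le_pow₀ hA'1
    have c1 : X ≤ Real.exp ((A' : ℝ) ^ 2 * X) := by
      have h5 := Real.add_one_le_exp X
      have h6 : Real.exp X ≤ Real.exp ((A' : ℝ) ^ 2 * X) := by
        apply Real.exp_le_exp.2
        have : 0 ≤ X := by linarith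
        nlinarith
      linarith
    have c2 : r ^ (η / 2) = Real.exp (Λ * (η / 2)) := by
      rw [hΛ, Real.rpow_def_of_pos hr0]
    rw [c2, ← Real.exp_add]
    calc X * Real.exp (120000 * (A' : ℝ) ^ 2 * X)
        ≤ Real.exp ((A' : ℝ) ^ 2 * X) * Real.exp (120000 * (A' : ℝ) ^ 2 * X) := by gcongr
      _ = Real.exp (120001 * (A' : ℝ) ^ 2 * X) := by
          rw [← Real.exp_add]
          congr 1
          ring
      _ ≤ _ := by
          apply Real.exp_le_exp.2
          have h7 : 120001 * (A' : ℝ) ^ 2 * X = 120001 * (A' : ℝ) ^ 2 +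
              Λ * (120001 * (A' : ℝ) ^ 2 / Q) := by
            rw [hX]
            field_simp
          rw [h7]
          gcongr
  have b2 : (Q : ℝ) ^ (2 * S.card) ≤ K2 * r ^ (η / 2) := by
    rw [pow_mul]
    refine (hcard S fun p hp => (hSp p hp).one_le).trans ?_
    have : (∏ p ∈ S, (p : ℝ)) ^ (η / 2) ≤ r ^ (η / 2) :=
      Real.rpow_le_rpow (by linarith) hprodS (by positivity)
    gcongr
  have b3 : r ^ (η / 2) * r ^ (η / 2) = r ^ η := by
    rw [← Real.rpow_add hr0]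
    congr 1
    ring
  have hX0 : 0 < X := by linarith
  have hrη : 0 < r ^ (η / 2) := Real.rpow_pos_of_pos hr0 _
  calc 10 ^ 10 * (A' : ℝ) ^ 4 * X * R ^ 2 * Real.exp (120000 * (A' : ℝ) ^ 2 * X) *
        (Q : ℝ) ^ (2 * S.card)
      = 10 ^ 10 * (A' : ℝ) ^ 4 * R ^ 2 * (X * Real.exp (120000 * (A' : ℝ) ^ 2 * X)) *
        (Q : ℝ) ^ (2 * S.card) := by ring
    _ ≤ 10 ^ 10 * (A' : ℝ) ^ 4 * R ^ 2 * (Real.exp (120001 * (A' : ℝ) ^ 2) * r ^ (η / 2)) *
        (K2 * r ^ (η / 2)) := by gcongr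
    _ = K1 * K2 * R ^ 2 * (r ^ (η / 2) * r ^ (η / 2)) := by rw [hK1]; ring
    _ = _ := by rw [b3]

end Pool.Agent.Lib.AbcH
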