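import Mathlib
import Pool.Agent.Lib.AbcE.TheoremE
import Pool.Agent.Lib.AbcH1.Core1

/-!
# Theorem E3: an effective height bound, linear in the radical of the modulus

Let `z = ∏ p i ^ e i` be congruent to `1` modulo `M`. A simultaneous approximation
`γ e ≈ N f` with `β = ∏ p i ^ f i` congruent to `1` modulo `M0` (`M ∣ M0 ^ N`) gives the numbers
`α l = β ^ (m l) z ^ (-l)`, `m l = ⌊l N / γ⌋`, of small height with a common denominator, and
`β ^ (m l)` is congruent to `α l` modulo `M`.
-/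

namespace Pool.Agent.Lib.AbcH

open Finset Pool.Agent.AbcE

variable {ι : Type*} [Fintype ι]

/-- logarithm of a product of prime powers. -/
theorem log_prod_pow (p : ι → ℕ) (hp : ∀ i, 0 < p i) (v : ι → ℕ) :
    Real.log ((∏ i, p i ^ v i : ℕ) : ℝ) = ∑ i, (v i : ℝ) * Real.log (p i) := by
  rw [Nat.cast_prod, Real.log_prod]
  · refine Finset.sum_congr rfl fun i _ => ?_
    rw [Nat.cast_pow, Real.log_pow]
  · intro i _
    have := hp i
    positivity

/-- **Theorem E3**. -/
theorem theoremE3 (p : ι → ℕ) (hp : ∀ i, (p i).Prime) (hinj : Function.Injective p)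
    (e : ι → ℤ) (M : ℕ) (hM : 0 < M) (hcop : ∀ i, (p i).Coprime M)
    (hdvd : (M : ℤ) ∣ (posP p e : ℤ) - negP p e) (A Q : ℕ) (hA : 1 ≤ A) (hQ : 2 ≤ Q)
    (X : ℝ) (hX1 : 1 ≤ X) (hXL : ∑ i, Real.log (p i) ≤ Q * X)
    (h4 : ∑ i, (|e i| : ℝ) * Real.log (p i) ≤ A * Real.log M) :
    ∑ i, (|e i| : ℝ) * Real.log (p i) ≤
      10 ^ 9 * A ^ 3 * X * ((∏ q ∈ M.primeFactors, q : ℕ) : ℝ) *
        Real.exp (60000 * A ^ 2 * X) * (Q : ℝ) ^ Fintype.card ι := by
  classical
  by_contra hcon
  have hcon := not_le.1 hcon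
  set h : ℝ := ∑ i, (|e i| : ℝ) * Real.log (p i) with hh
  set R : ℝ := ((∏ q ∈ M.primeFactors, q : ℕ) : ℝ) with hR
  set L : ℝ := ∑ i, Real.log (p i) with hL
  have hpos : ∀ i, 0 < p i := fun i => (hp i).pos
  have hlp : ∀ i, 0 < Real.log (p i) := fun i =>
    Real.log_pos (by exact_mod_cast (hp i).one_lt)
  have hR1 : 1 ≤ R := by
    rw [hR]
    exact_mod_cast Nat.succ_le_of_lt
      (Finset.prod_pos fun q hq => (Nat.prime_of_mem_primeFactors hq).pos)
  have hL0 : 0 ≤ L := Finset.sum_nonneg fun i _ => (hlp i).le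
  have hA1 : (1 : ℝ) ≤ A := by exact_mod_cast hA
  have hA0 : (0 : ℝ) < A := by linarith
  have hQ2 : (2 : ℝ) ≤ Q := by exact_mod_cast hQ
  have hQ0 : (0 : ℝ) < Q := by linarith
  have hX0 : (0 : ℝ) < X := by linarith
  set P : ℝ := (Q : ℝ) ^ Fintype.card ι with hP
  have hP1 : 1 ≤ P := one_le_pow₀ (by linarith)
  set W : ℝ := Real.exp (60000 * A ^ 2 * X) with hW
  have hW1 : 1 ≤ W := Real.one_le_exp (by positivity)
  have hhbig : 10 ^ 9 * A ^ 3 * X * 1 < h := by
    refine lt_of_le_of_lt ?_ hcon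
    calc (10 : ℝ) ^ 9 * A ^ 3 * X * 1 = 10 ^ 9 * A ^ 3 * X * 1 * 1 * 1 := by ring
      _ ≤ _ := by gcongr
  rw [mul_one] at hhbig
  have hA2 : (1 : ℝ) ≤ A ^ 2 := one_le_pow₀ hA1
  have hA3 : (A : ℝ) ^ 2 ≤ A ^ 3 := pow_le_pow_right₀ hA1 (by norm_num)
  have hA2X : (1 : ℝ) ≤ A ^ 2 * X := one_le_mul_of_one_le_of_one_le hA2 hX1
  have hh0 : 0 < h := lt_trans (by positivity) hhbig
  -- `e ≠ 0`
  have he0 : ∃ i, e i ≠ 0 := by
    by_contra hc
    have hc' : ∀ i, e i = 0 := fun i => by_contra fun h => hc ⟨i, h⟩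
    have : h = 0 := by
      rw [hh]
      refine Finset.sum_eq_zero ?_
      intro i _
      rw [hc' i]
      simp
    linarith
  -- `N`
  set N : ℕ := ⌊h / (57600 * (A ^ 2 * X))⌋₊ with hN
  have hk0 : (0 : ℝ) < 57600 * (A ^ 2 * X) := by positivity
  have hNle : (N : ℝ) ≤ h / (57600 * (A ^ 2 * X)) := Nat.floor_le (by positivity)
  have hNle' : (N : ℝ) * (57600 * (A ^ 2 * X)) ≤ h := by rwa [le_div_iff₀ hk0] at hNle
  have hNlt : h / (57600 * (A ^ 2 * X)) < (N : ℝ) + 1 := Nat.lt_floor_add_one _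
  have hNlt' : h < ((N : ℝ) + 1) * (57600 * (A ^ 2 * X)) := by rwa [div_lt_iff₀ hk0] at hNlt
  have hN4 : (5000 : ℝ) ≤ N := by
    have h1 : (5001 : ℝ) * (57600 * (A ^ 2 * X)) < h := by
      refine lt_of_le_of_lt ?_ hhbig
      have h2 : (A : ℝ) ^ 2 * X ≤ A ^ 3 * X := by gcongr
      nlinarith only [h2, hA2X]
    have h2 : (5001 : ℝ) * (57600 * (A ^ 2 * X)) < ((N : ℝ) + 1) * (57600 * (A ^ 2 * X)) :=
      h1.trans hNlt'
    have h3 := lt_of_mul_lt_mul_right h2 hk0.le
    linarith
  have hNpos : 0 < N := by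
    have : (0 : ℝ) < N := by linarith
    exact_mod_cast this
  have hhN : h ≤ N * (60000 * (A ^ 2 * X)) := by
    nlinarith only [hNlt', hN4, hA2X]
  -- size of `M`
  have hneZ := posP_ne_negP hp hinj e he0
  have hMmax : M ≤ max (posP p e) (negP p e) :=
    natAbs_sub_lt_max _ _ (posP_pos hpos e) (negP_pos hpos e) hneZ M hdvd
  have hMR : (0 : ℝ) < M := by exact_mod_cast hM
  have hlogM : Real.log M ≤ h := by
    refine (Real.log_le_log hMR ?_).trans (log_max_le hpos e)
    exact_mod_cast hMmax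
  -- `M0`
  obtain ⟨M0, hM0, hMM0, hM0le, hM0cop⟩ := exists_M0 M N hM hNpos
  have hM0R : (0 : ℝ) < M0 := by exact_mod_cast hM0
  have hlogM0 : (N : ℝ) * Real.log M0 ≤ h + N * Real.log R := by
    have h1 : ((M0 : ℝ)) ^ N ≤ M * R ^ N := by
      rw [hR]
      exact_mod_cast hM0le
    have h2 := Real.log_le_log (by positivity) h1
    rw [Real.log_mul hMR.ne' (by positivity), Real.log_pow, Real.log_pow] at h2
    linarith
  have hNR : (0 : ℝ) < N := by exact_mod_cast hNpos
  have hM0e : (M0 : ℝ) ≤ W * R := by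
    have h1 : Real.log M0 ≤ 60000 * A ^ 2 * X + Real.log R := by
      have h2 : (N : ℝ) * Real.log M0 ≤ N * (60000 * A ^ 2 * X + Real.log R) := by
        have : (N : ℝ) * (60000 * A ^ 2 * X) = N * (60000 * (A ^ 2 * X)) := by ring
        linarith
      exact le_of_mul_le_mul_left h2 hNR
    have h3 : (M0 : ℝ) = Real.exp (Real.log M0) := (Real.exp_log hM0R).symm
    rw [h3]
    calc Real.exp (Real.log M0) ≤ Real.exp (60000 * A ^ 2 * X + Real.log R) :=
          Real.exp_le_exp.2 h1
      _ = W * R := by rw [Real.exp_add, Real.exp_log (by linarith), hW]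
  have hQpos : 0 < Q := by omega
  obtain ⟨γ, hγ0, hγle, f, hf, hfM⟩ := pigeon p M0 hM0 (fun i => hM0cop _ (hcop i)) e N hNpos
    (fun _ => Q) (fun _ => hQpos)
  set G : ℕ := M0 * ∏ _i : ι, Q with hG
  have hGpos : 0 < G := Nat.mul_pos hM0 (Finset.prod_pos fun i _ => hQpos)
  have hG1 : (1 : ℝ) ≤ G := by exact_mod_cast hGpos
  have hGle : (G : ℝ) ≤ W * R * P := by
    rw [hG, Finset.prod_const, Finset.card_univ]
    push_cast
    rw [← hP]
    exact mul_le_mul_of_nonneg_right hM0e (by linarith)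
  -- `N` is large compared to `G`
  have hNG : 4800 * (A : ℝ) * G ≤ (N : ℝ) := by
    have h1 : 10 ^ 9 * A ^ 3 * X * (G : ℝ) < h := by
      refine lt_of_le_of_lt ?_ hcon
      calc 10 ^ 9 * A ^ 3 * X * (G : ℝ) ≤ 10 ^ 9 * A ^ 3 * X * (W * R * P) := by
            gcongr
        _ = _ := by ring
    have h2 : 10 ^ 9 * A ^ 3 * X * (G : ℝ) < N * (60000 * (A ^ 2 * X)) := h1.trans_le hhN
    have h3 : (10 ^ 9 / 60000 * A * (G : ℝ)) * (60000 * (A ^ 2 * X)) <
        N * (60000 * (A ^ 2 * X)) := by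
      refine lt_of_eq_of_lt ?_ h2
      ring
    have h4 := lt_of_mul_lt_mul_right h3 (by positivity)
    refine le_trans ?_ h4.le
    gcongr
    norm_num
  have hγR : (0 : ℝ) < γ := by exact_mod_cast hγ0
  have hγG : (γ : ℝ) ≤ G := by exact_mod_cast hγle
  have hγ1 : (1 : ℝ) ≤ γ := by exact_mod_cast hγ0
  -- `ρ = N / γ`
  set ρ : ℝ := (N : ℝ) / γ with hρ
  have hρ0 : 0 < ρ := by positivity
  have hργ : ρ * γ = N := by rw [hρ]; field_simp
  have hρbig : 4800 * (A : ℝ) ≤ ρ := by
    rw [hρ, le_div_iff₀ hγR]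
    refine le_trans ?_ hNG
    gcongr
  -- heights
  have hkey : ∀ i, |(γ : ℝ) * e i - N * f i| ≤ N / Q := by
    intro i
    have h1 : |(γ : ℝ) * e i - N * f i| * Q < N := by exact_mod_cast hf i
    rw [le_div_iff₀ hQ0]
    exact h1.le
  have hfi : ∀ i, |(f i : ℝ)| ≤ 2 * (|(e i : ℝ)| / ρ) := by
    intro i
    by_cases h0 : f i = 0
    · rw [h0]
      simp only [Int.cast_zero, abs_zero]
      positivity
    have hf1 : (1 : ℝ) ≤ |(f i : ℝ)| := by
      have := Int.one_le_abs h0
      exact_mod_cast this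
    have h3 : (N : ℝ) * |(f i : ℝ)| ≤ γ * |(e i : ℝ)| + N / Q := by
      have e1 : (N : ℝ) * |(f i : ℝ)| = |(γ : ℝ) * e i - (γ * e i - N * f i)| := by
        rw [sub_sub_cancel, abs_mul, abs_of_pos hNR]
      have e2 : |(γ : ℝ) * e i - (γ * e i - N * f i)| ≤ |(γ : ℝ) * e i| + |(γ : ℝ) * e i - N * f i| :=
        abs_sub _ _
      have e3 : |(γ : ℝ) * e i| = γ * |(e i : ℝ)| := by rw [abs_mul, abs_of_pos hγR]
      have := hkey i
      linarith
    have h4 : (N : ℝ) / Q ≤ N / 2 := by gcongr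
    have h5 : (N : ℝ) * |(f i : ℝ)| ≤ 2 * (γ * |(e i : ℝ)|) := by
      have : (N : ℝ) * 1 ≤ N * |(f i : ℝ)| := by gcongr
      linarith
    rw [mul_div_assoc', le_div_iff₀ hρ0]
    have h6 : (γ : ℝ) * (|(f i : ℝ)| * ρ) ≤ γ * (2 * |(e i : ℝ)|) := by
      calc (γ : ℝ) * (|(f i : ℝ)| * ρ) = (ρ * γ) * |(f i : ℝ)| := by ring
        _ = N * |(f i : ℝ)| := by rw [hργ]
        _ ≤ 2 * (γ * |(e i : ℝ)|) := h5
        _ = γ * (2 * |(e i : ℝ)|) := by ring
    exact le_of_mul_le_mul_left h6 hγR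
  have hβ : ∑ i, (|f i| : ℝ) * Real.log (p i) ≤ 2 * (h / ρ) := by
    calc ∑ i, (|f i| : ℝ) * Real.log (p i)
        ≤ ∑ i, (2 * (|(e i : ℝ)| / ρ)) * Real.log (p i) := by
          refine Finset.sum_le_sum fun i _ => ?_
          exact mul_le_mul_of_nonneg_right (hfi i) (hlp i).le
      _ = 2 * (h / ρ) := by
          rw [hh, Finset.sum_div, Finset.mul_sum]
          refine Finset.sum_congr rfl fun i _ => ?_
          ring
  -- `f ≠ 0`
  have hf0 : ∃ i, f i ≠ 0 := by
    by_contra hc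
    have hc' : ∀ i, f i = 0 := fun i => by_contra fun h => hc ⟨i, h⟩
    have h1 : ∀ i, |(e i : ℝ)| ≤ N / Q := by
      intro i
      have h2 := hkey i
      rw [hc' i, Int.cast_zero, mul_zero, sub_zero, abs_mul, abs_of_pos hγR] at h2
      have h3 := abs_nonneg (e i : ℝ)
      nlinarith only [h2, h3, hγ1]
    have h2 : h ≤ N * X := by
      calc h ≤ ∑ i, (N / Q : ℝ) * Real.log (p i) := by
            rw [hh]
            refine Finset.sum_le_sum fun i _ => ?_
            exact mul_le_mul_of_nonneg_right (h1 i) (hlp i).le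
        _ = N / Q * L := by rw [hL, Finset.mul_sum]
        _ ≤ N / Q * (Q * X) := by gcongr
        _ = N * X := by field_simp
    have h3 : (N : ℝ) * X ≤ N * (A ^ 2 * X) := by
      have : 1 * X ≤ A ^ 2 * X := by gcongr
      rw [one_mul] at this
      gcongr
    nlinarith only [h2, h3, hNle', hh0]
  have hneB := posP_ne_negP hp hinj f hf0
  set B1 := posP p f with hB1
  set B2 := negP p f with hB2
  have hlogB : Real.log ((max B1 B2 : ℕ) : ℝ) ≤ 2 * (h / ρ) := (log_max_le hpos f).trans hβ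
  -- `D`, `d`
  set D : ℕ := N / (120 * A * γ) with hD
  set d : ℕ := 4 * N / (D + 1) with hd
  have hA120 : 0 < 120 * A * γ := by positivity
  have hD1 : (120 * A * γ) * D ≤ N := Nat.mul_div_le _ _
  have hD2 : N < (120 * A * γ) * (D + 1) := Nat.lt_mul_div_succ _ hA120
  have hD40 : 40 ≤ D := by
    rw [hD, Nat.le_div_iff_mul_le hA120]
    have h1 : (40 : ℝ) * (120 * A * γ) ≤ N := by
      rw [← hργ]
      calc (40 : ℝ) * (120 * A * γ) = (4800 * A) * γ := by ring
        _ ≤ ρ * γ := by gcongr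
    exact_mod_cast h1
  have hd1 : d * (D + 1) ≤ 4 * N := Nat.div_mul_le_self _ _
  have hd2 : 4 * N < (D + 1) * (d + 1) := Nat.lt_mul_div_succ _ (by omega)
  have h33 : 41 * d ≤ 4 * N := by
    have : 41 ≤ D + 1 := by omega
    calc 41 * d ≤ (D + 1) * d := Nat.mul_le_mul_right _ this
      _ = d * (D + 1) := by ring
      _ ≤ 4 * N := hd1
  have hx : (D + 1) * (d + 1) ≤ 4 * N + (D + 1) := by
    have : (D + 1) * (d + 1) = d * (D + 1) + (D + 1) := by ring
    omega
  have hDN : 120 * D ≤ N := by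
    have h1 : 120 * D ≤ (120 * A * γ) * D := by
      have : 120 ≤ 120 * A * γ := by
        calc 120 = 120 * 1 * 1 := by norm_num
          _ ≤ 120 * A * γ := by
              gcongr
              omega
      exact Nat.mul_le_mul_right _ this
    exact h1.trans hD1
  have hDγ : (D + 1) * γ ≤ N := by
    have h1 : (D + 1) * γ ≤ (120 * A * γ) * D := by
      calc (D + 1) * γ ≤ (120 * D) * γ := Nat.mul_le_mul_right _ (by omega)
        _ = 120 * 1 * γ * D := by ring
        _ ≤ 120 * A * γ * D := by gcongr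
    exact h1.trans hD1
  -- the exponents `m l`
  set m : ℕ → ℕ := fun l => l * N / γ with hm
  have hmstep : ∀ l < d, m l + D < m (l + 1) := by
    intro l _
    have h1 : m l + (D + 1) ≤ m (l + 1) := by
      simp only [hm]
      rw [← Nat.add_mul_div_right _ _ hγ0]
      apply Nat.div_le_div_right
      calc l * N + (D + 1) * γ ≤ l * N + N := by omega
        _ = (l + 1) * N := by ring
    omega
  -- the common denominator
  set w : ℕ := d * N / (γ * Q) with hw
  set v : ι → ℕ := fun i => (f i).natAbs + w with hv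
  set b : ℕ → ι → ℤ := fun l i => l * e i - m l * f i with hb
  have hbv : ∀ l ≤ d, ∀ i, |b l i| ≤ v i := by
    intro l hl i
    -- real bound
    have h1 : (γ : ℝ) * b l i = l * (γ * e i - N * f i) + (l * N - γ * m l) * f i := by
      simp only [hb]
      push_cast
      ring
    have h2 : |((l : ℝ) * N - γ * m l)| ≤ γ := by
      have e1 : γ * m l ≤ l * N := Nat.mul_div_le _ _
      have e2 : l * N < γ * (m l + 1) := Nat.lt_mul_div_succ _ hγ0
      have e1' : (γ : ℝ) * m l ≤ l * N := by exact_mod_cast e1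
      have e2' : (l : ℝ) * N < γ * (m l + 1) := by exact_mod_cast e2
      rw [abs_of_nonneg (by linarith)]
      linarith
    have h3 : (γ : ℝ) * |(b l i : ℝ)| ≤ d * (N / Q) + γ * |(f i : ℝ)| := by
      have e1 : (γ : ℝ) * |(b l i : ℝ)| = |(γ : ℝ) * b l i| := by rw [abs_mul, abs_of_pos hγR]
      rw [e1, h1]
      refine (abs_add_le _ _).trans ?_
      rw [abs_mul, abs_mul, abs_of_nonneg (Nat.cast_nonneg l)]
      have e4 := hkey i
      have e5 : (l : ℝ) ≤ d := by exact_mod_cast hl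
      have e6 := abs_nonneg (f i : ℝ)
      gcongr
    have h4 : |(b l i : ℝ)| - |(f i : ℝ)| ≤ d * N / (γ * Q) := by
      rw [le_div_iff₀ (by positivity)]
      have e1 : (d : ℝ) * (N / Q) * Q = d * N := by field_simp
      nlinarith only [h3, e1, hQ0]
    have h5 : |b l i| - |f i| ≤ (w : ℤ) := by
      have e1 : ((|b l i| - |f i| : ℤ) : ℝ) ≤ (((d * N : ℕ) : ℝ) / ((γ * Q : ℕ) : ℝ)) := by
        push_cast
        exact h4
      have e2 : (|b l i| - |f i| : ℤ) ≤ ⌊(((d * N : ℕ) : ℝ) / ((γ * Q : ℕ) : ℝ))⌋ :=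
        Int.le_floor.2 e1
      refine e2.trans ?_
      rw [hw]
      have e3 : ⌊(((d * N : ℕ) : ℝ) / ((γ * Q : ℕ) : ℝ))⌋ = ((d * N / (γ * Q) : ℕ) : ℤ) := by
        rw [← Nat.floor_div_eq_div (K := ℝ) (d * N) (γ * Q)]
        rw [Int.natCast_floor_eq_floor]
        positivity
      rw [e3]
    have h6 : ((v i : ℕ) : ℤ) = |f i| + w := by
      simp only [hv]
      push_cast
      rw [Int.abs_eq_natAbs] 
    rw [h6]
    linarith
  set V : ℕ := ∏ i, p i ^ v i with hV
  set Al : ℕ → ℕ := fun l => ∏ i, p i ^ ((v i : ℤ) + b l i).toNat with hAl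
  have hVpos : 0 < V := Finset.prod_pos fun i _ => pow_pos (hpos i) _
  have hAlpos : ∀ l, 0 < Al l := fun l => Finset.prod_pos fun i _ => pow_pos (hpos i) _
  have hVW : V ≤ V ^ 2 := Nat.le_self_pow two_ne_zero V
  have hAW : ∀ l ≤ d, Al l ≤ V ^ 2 := by
    intro l hl
    simp only [hAl, hV]
    rw [← Finset.prod_pow]
    refine Finset.prod_le_prod' fun i _ => ?_
    rw [← pow_mul]
    refine Nat.pow_le_pow_right (hpos i) ?_
    have h1 := (abs_le.1 (hbv l hl i)).2
    omega
  have hrel : ∀ l ≤ d, (M : ℤ) ∣ (Al l : ℤ) * B1 ^ m l - V * B2 ^ m l := by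
    intro l hl
    have hid : Al l * B1 ^ m l * negP p e ^ l = V * B2 ^ m l * posP p e ^ l := by
      simp only [hAl, hV, hB1, hB2]
      unfold posP negP
      simp only [← Finset.prod_pow, ← Finset.prod_mul_distrib]
      refine Finset.prod_congr rfl fun i _ => ?_
      simp only [← pow_mul, ← pow_add]
      congr 1
      have h1 := (abs_le.1 (hbv l hl i)).1
      have h2 : 0 ≤ (v i : ℤ) + b l i := by linarith
      zify
      rw [Int.toNat_of_nonneg h2]
      have h3 : ∀ x : ℤ, ((x.toNat : ℤ)) - ((-x).toNat : ℤ) = x := by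
        intro x
        omega
      have h4 := h3 (f i)
      have h5 := h3 (e i)
      simp only [hb]
      linear_combination (m l : ℤ) * h4 - (l : ℤ) * h5
    have h1 : (Al l : ℤ) * B1 ^ m l * negP p e ^ l = V * B2 ^ m l * posP p e ^ l := by
      exact_mod_cast hid
    have h2 : ((Al l : ℤ) * B1 ^ m l - V * B2 ^ m l) * negP p e ^ l
        = V * B2 ^ m l * ((posP p e : ℤ) ^ l - (negP p e : ℤ) ^ l) := by
      linear_combination h1
    have h3 : (M : ℤ) ∣ ((Al l : ℤ) * B1 ^ m l - V * B2 ^ m l) * negP p e ^ l := by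
      rw [h2]
      exact (hdvd.trans (sub_dvd_pow_sub_pow _ _ _)).mul_left _
    have h4 : IsCoprime (M : ℤ) ((negP p e : ℤ) ^ l) :=
      (Nat.isCoprime_iff_coprime.2 (negP_coprime hcop e).symm).pow_right
    exact h4.dvd_of_dvd_mul_right h3
  refine Pool.Agent.AbcH1.core1 m Al D d N 6 M M0 B1 B2 V (D + m d) (V ^ 2) (posP_pos hpos f)
    (negP_pos hpos f) hVpos (fun l _ => hAlpos l) hAW hmstep (by omega) (by omega) hMM0 hfM hneB
    hrel (posP_coprime hcop f).symm ?_ ?_
  · -- size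
    have hB1R : 0 < B1 := posP_pos hpos f
    have hmB : 0 < max B1 B2 := lt_max_of_lt_left hB1R
    have hmBR : (0 : ℝ) < ((max B1 B2 : ℕ) : ℝ) := by exact_mod_cast hmB
    have hVR : (0 : ℝ) < (V : ℝ) := by exact_mod_cast hVpos
    have hxpos : (0 : ℝ) < (((D + 1) * (d + 1) : ℕ) : ℝ) := by
      exact_mod_cast (by positivity : 0 < (D + 1) * (d + 1))
    have hgoal : ((((D + 1) * (d + 1) : ℕ) : ℝ)) ^ 2 * (4 : ℝ) ^ (D + m d) *
        ((max B1 B2 : ℕ) : ℝ) ^ (6 * D) * ((V : ℝ) ^ 2) ^ 6 < (M : ℝ) := by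
      rw [← Real.log_lt_log_iff (by positivity) hMR]
      rw [Real.log_mul (by positivity) (by positivity), Real.log_mul (by positivity) (by positivity),
        Real.log_mul (by positivity) (by positivity), Real.log_pow, Real.log_pow, Real.log_pow,
        Real.log_pow, Real.log_pow]
      push_cast
      have hD1R : 120 * (A : ℝ) * γ * D ≤ N := by exact_mod_cast hD1
      have hD2R : (N : ℝ) ≤ 120 * A * γ * (D + 1) := by exact_mod_cast hD2.le
      have hd1R : (d : ℝ) * (D + 1) ≤ 4 * N := by exact_mod_cast hd1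
      have hxR : ((D : ℝ) + 1) * (d + 1) ≤ 4 * N + (D + 1) := by exact_mod_cast hx
      have hDNR : 120 * (D : ℝ) ≤ N := by exact_mod_cast hDN
      have hD0 : (0 : ℝ) ≤ D := Nat.cast_nonneg _
      have hd0 : (0 : ℝ) ≤ d := Nat.cast_nonneg _
      have hDρ : 120 * (A : ℝ) * D ≤ ρ := by
        rw [hρ, le_div_iff₀ hγR]
        linarith
      have hρD : ρ ≤ 120 * A * (D + 1) := by
        rw [hρ, div_le_iff₀ hγR]
        linarith
      have hdr : (d : ℝ) * ρ ≤ 480 * (A * N) := by
        calc (d : ℝ) * ρ ≤ d * (120 * A * (D + 1)) := mul_le_mul_of_nonneg_left hρD hd0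
          _ = 120 * A * (d * (D + 1)) := by ring
          _ ≤ 120 * A * (4 * N) := by gcongr
          _ = 480 * (A * N) := by ring
      have hmd : (m d : ℝ) ≤ d * ρ := by
        have e1 : γ * m d ≤ d * N := Nat.mul_div_le _ _
        have e1' : (γ : ℝ) * m d ≤ d * N := by exact_mod_cast e1
        rw [hρ, mul_div_assoc', le_div_iff₀ hγR]
        linarith
      -- everything is compared with `U = h / A`
      set U : ℝ := h / A with hU
      have hUA : h = A * U := by rw [hU]; field_simp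
      have hU0 : 0 < U := by positivity
      have hAN : (A : ℝ) * N * X * 57600 ≤ U := by
        have h1 : (A : ℝ) * (A * N * X * 57600) ≤ A * U := by
          rw [← hUA]
          calc (A : ℝ) * (A * N * X * 57600) = N * (57600 * (A ^ 2 * X)) := by ring
            _ ≤ h := hNle'
        exact le_of_mul_le_mul_left h1 hA0
      have hANX : (A : ℝ) * N ≤ A * N * X := by
        have : (A : ℝ) * N * 1 ≤ A * N * X := by gcongr
        linarith
      have hNAN : (N : ℝ) ≤ A * N := by nlinarith only [hA1, hNR]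
      have t1 : 2 * Real.log (((D : ℝ) + 1) * (d + 1)) ≤ 10 * N := by
        have h1 : (0 : ℝ) < ((D : ℝ) + 1) * (d + 1) := by positivity
        have h2 := Real.log_le_sub_one_of_pos h1
        linarith
      have t2 : ((D : ℝ) + m d) * Real.log 4 ≤ 700 * (A * N) := by
        have h1 : Real.log 4 ≤ 1.4 := by
          have h2 : Real.log 4 = 2 * Real.log 2 := by
            rw [show (4 : ℝ) = 2 ^ 2 from by norm_num, Real.log_pow]
            norm_num
          have := Real.log_two_lt_d9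
          rw [h2]; linarith
        have h3 : (0 : ℝ) ≤ (D : ℝ) + m d := by positivity
        calc ((D : ℝ) + m d) * Real.log 4 ≤ ((D : ℝ) + m d) * 1.4 :=
              mul_le_mul_of_nonneg_left h1 h3
          _ ≤ (N / 120 + 480 * (A * N)) * 1.4 := by
              have : (D : ℝ) ≤ N / 120 := by linarith
              have : (m d : ℝ) ≤ 480 * (A * N) := hmd.trans hdr
              gcongr
          _ ≤ 700 * (A * N) := by linarith
      have t3 : 6 * (D : ℝ) * Real.log (max (B1 : ℝ) (B2 : ℝ)) ≤ U / 10 := by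
        have hcast : (max (B1 : ℝ) (B2 : ℝ)) = ((max B1 B2 : ℕ) : ℝ) := by push_cast; rfl
        rw [hcast]
        have h1 : 6 * (D : ℝ) * Real.log ((max B1 B2 : ℕ) : ℝ) ≤ 6 * D * (2 * (h / ρ)) :=
          mul_le_mul_of_nonneg_left hlogB (by positivity)
        have h2 : (D : ℝ) * (h / ρ) ≤ U / 120 := by
          rw [mul_div_assoc', div_le_div_iff₀ hρ0 (by norm_num), hUA]
          nlinarith only [hDρ, hU0]
        linarith only [h1, h2]
      have t4 : 6 * (2 * Real.log (V : ℝ)) ≤ U / 10 + U / 10 := by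
        have e1 : Real.log (V : ℝ) ≤ 2 * (h / ρ) + d * ρ * X := by
          rw [hV, log_prod_pow p hpos v]
          have e2 : (w : ℝ) ≤ d * ρ / Q := by
            have e3 : γ * Q * w ≤ d * N := Nat.mul_div_le _ _
            have e3' : (γ : ℝ) * Q * w ≤ d * N := by exact_mod_cast e3
            rw [hρ, le_div_iff₀ hQ0, mul_div_assoc', le_div_iff₀ hγR]
            linarith
          calc ∑ i, (v i : ℝ) * Real.log (p i)
              = ∑ i, (|(f i : ℝ)| * Real.log (p i) + w * Real.log (p i)) := by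
                refine Finset.sum_congr rfl fun i _ => ?_
                simp only [hv]
                push_cast
                rw [Nat.cast_natAbs]
                push_cast
                ring
            _ = ∑ i, |(f i : ℝ)| * Real.log (p i) + w * L := by
                rw [Finset.sum_add_distrib, hL, Finset.mul_sum]
            _ ≤ 2 * (h / ρ) + (d * ρ / Q) * (Q * X) := by gcongr
            _ = 2 * (h / ρ) + d * ρ * X := by
                congr 1
                field_simp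
        have h2 : 12 * ((d : ℝ) * ρ * X) ≤ U / 10 := by
          have : (d : ℝ) * ρ * X ≤ 480 * (A * N) * X := by gcongr
          nlinarith only [this, hAN]
        have h3 : 12 * (2 * (h / ρ)) ≤ U / 10 := by
          have h5 : h / ρ ≤ U / 240 := by
            rw [div_le_div_iff₀ hρ0 (by norm_num), hUA]
            nlinarith only [hρbig, hU0, hA0]
          linarith only [h5]
        linarith only [e1, h2, h3]
      have t5 : U ≤ Real.log M := by
        rw [hU, div_le_iff₀ hA0, mul_comm]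
        exact h4
      nlinarith only [t1, t2, t3, t4, t5, hAN, hANX, hNAN, hU0, hNR]
    exact_mod_cast hgoal
  · -- zero estimate inequality
    have h1 : (d + 1) * D + (d + 1) = (D + 1) * (d + 1) := by ring
    omega

end Pool.Agent.Lib.AbcH
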