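import Pool.Agent.Lib.AbcH.MeanR
import Pool.Agent.Lib.AbcH.Decay

/-!
# FewExceptions: the mean theorem for abc-triples `(a, b, c)`
-/

open Finset Filter Topology

namespace Pool.Agent.Lib.AbcH

open Pool.Agent.Lib.Pabc2

/-- the radical -/
def rad (n : ℕ) : ℕ := ∏ p ∈ n.primeFactors, p

/-- the set of all abc-triples -/
def allT : Set (ℕ × ℕ × ℕ) := {t | AbcTriple t.1 t.2.1 t.2.2}

/-- the abc-triples all of whose prime factors divide `r` -/
def triples (r : ℕ) : Set (ℕ × ℕ × ℕ) :=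
  {t | AbcTriple t.1 t.2.1 t.2.2 ∧ ∀ p : ℕ, p.Prime → p ∣ t.1 * t.2.1 * t.2.2 → p ∣ r}

theorem isT_of' {t : ℕ × ℕ × ℕ} (h : t ∈ allT) : IsT (min t.1 t.2.1, max t.1 t.2.1) := by
  obtain ⟨ha, hb, hc, hab⟩ := h
  refine ⟨by simp only; omega, by simp only; omega, ?_⟩
  simp only
  rcases le_total t.1 t.2.1 with h | h
  · rw [min_eq_left h, max_eq_right h]; exact hab
  · rw [min_eq_right h, max_eq_left h]; exact hab.symm

theorem N_of' {t : ℕ × ℕ × ℕ} (h : t ∈ allT) :
    N (min t.1 t.2.1, max t.1 t.2.1) = t.1 * t.2.1 * t.2.2 := by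
  obtain ⟨ha, hb, hc, hab⟩ := h
  unfold N
  simp only
  rcases le_total t.1 t.2.1 with h | h
  · rw [min_eq_left h, max_eq_right h, hc]
  · rw [min_eq_right h, max_eq_left h, ← hc]; ring

theorem rd_of' {t : ℕ × ℕ × ℕ} (h : t ∈ allT) :
    rd (min t.1 t.2.1, max t.1 t.2.1) = rad (t.1 * t.2.1 * t.2.2) := by
  unfold rd rad
  rw [N_of' h]

theorem ht_of' {t : ℕ × ℕ × ℕ} (h : t ∈ allT) :
    ht (min t.1 t.2.1, max t.1 t.2.1) = Real.log t.2.2 := by
  obtain ⟨ha, hb, hc, hab⟩ := h
  unfold ht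
  simp only
  congr 1
  rw [← hc]
  push_cast
  rcases le_total (t.1 : ℝ) t.2.1 with h | h
  · rw [min_eq_left h, max_eq_right h]
  · rw [min_eq_right h, max_eq_left h]; ring

theorem rad_pos (n : ℕ) : 0 < rad n :=
  Finset.prod_pos fun _ hp => (Nat.prime_of_mem_primeFactors hp).pos

theorem rad_dvd_iff {n r : ℕ} (hn : n ≠ 0) :
    rad n ∣ r ↔ ∀ p : ℕ, p.Prime → p ∣ n → p ∣ r := by
  constructor
  · intro h p hp hpn
    refine dvd_trans ?_ h
    exact Finset.dvd_prod_of_mem _ (Nat.mem_primeFactors.mpr ⟨hp, hpn, hn⟩)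
  · intro h
    apply Finset.prod_primes_dvd
    · intro p hp
      exact (Nat.prime_of_mem_primeFactors hp).prime
    · intro p hp
      exact h p (Nat.prime_of_mem_primeFactors hp) (Nat.dvd_of_mem_primeFactors hp)

/-- **The mean theorem**, from an individual bound with exponent `θ`. -/
theorem mean_of (s θ : ℝ) (hs : 0 < s) (hθ : 0 ≤ θ) (hsθ : s * θ < 2 / 3)
    (hH : ∃ K : ℝ, ∀ t ∈ allT, Real.log t.2.2 ≤ K * (rad (t.1 * t.2.1 * t.2.2) : ℝ) ^ θ) :
    Summable (fun t : allT => Real.log t.1.2.2 ^ s / rad (t.1.1 * t.1.2.1 * t.1.2.2)) ∧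
    Tendsto (fun Y : ℕ => (∑ r ∈ Finset.Icc 1 Y, ∑' t : triples r, Real.log t.1.2.2 ^ s) / Y) atTop
      (𝓝 (∑' t : allT, Real.log t.1.2.2 ^ s / rad (t.1.1 * t.1.2.1 * t.1.2.2))) := by
  classical
  have hH' : ∃ K : ℝ, ∀ t, IsT t → ht t ≤ K * (rd t : ℝ) ^ θ := by
    obtain ⟨K, hK⟩ := hH
    refine ⟨K, fun t hI => ?_⟩
    have hmem : (t.1, t.2, t.1 + t.2) ∈ allT := ⟨hI.1, hI.pos2, rfl, hI.2.2⟩
    have h1 := hK _ hmem
    have h2 := ht_of' hmem
    have h3 := rd_of' hmem
    simp only at h1 h2 h3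
    rw [min_eq_left hI.2.1, max_eq_right hI.2.1] at h2 h3
    rw [← h2, ← h3] at h1
    exact h1
  obtain ⟨C, hC⟩ := total s θ hs hθ hsθ hH'
  have hsumT : Summable (fun t : {t : ℕ × ℕ // IsT t} => ht t.1 ^ s / rd t.1) := by
    apply summable_of_sum_le (c := C)
    · intro t
      have := (ht_pos t.2).le
      simp only [Pi.zero_apply]
      positivity
    · intro T
      have h1 := hC (T.image Subtype.val) (by
        intro t ht'
        rw [Finset.mem_image] at ht'
        obtain ⟨u, _, rfl⟩ := ht'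
        exact u.2)
      rwa [Finset.sum_image (fun x _ y _ h => Subtype.ext h)] at h1
  have hsumB : Summable (fun x : {t : ℕ × ℕ // IsT t} × Bool => ht x.1.1 ^ s / rd x.1.1) := by
    have h1 : Summable (fun _ : Bool => (1 : ℝ)) := Summable.of_finite
    have h2 := hsumT.mul_of_nonneg h1 (fun t => by
      have := (ht_pos t.2).le
      simp only [Pi.zero_apply]
      positivity) (fun _ => zero_le_one)
    simpa using h2
  have hsumA : Summable (fun t : allT => Real.log t.1.2.2 ^ s / rad (t.1.1 * t.1.2.1 * t.1.2.2)) := by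
    let φ : allT → {t : ℕ × ℕ // IsT t} × Bool := fun t =>
      (⟨(min t.1.1 t.1.2.1, max t.1.1 t.1.2.1), isT_of' t.2⟩, decide (t.1.1 ≤ t.1.2.1))
    have hφ : Function.Injective φ := by
      rintro ⟨⟨a, b, c⟩, h⟩ ⟨⟨a', b', c'⟩, h'⟩ heq
      simp only [φ, Prod.mk.injEq, Subtype.mk.injEq, decide_eq_decide] at heq
      obtain ⟨⟨h1, h2⟩, h3⟩ := heq
      obtain ⟨_, _, hc, _⟩ := h
      obtain ⟨_, _, hc', _⟩ := h'
      simp only at hc hc'
      have e1 : a = a' ∧ b = b' := by
        rcases le_total a b with g | g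
        · have g' := h3.1 g
          rw [min_eq_left g, min_eq_left g'] at h1
          rw [max_eq_right g, max_eq_right g'] at h2
          exact ⟨h1, h2⟩
        · rcases eq_or_lt_of_le g with g0 | g0
          · have g1 := h3.1 (by omega)
            rw [min_eq_left (by omega : a ≤ b), min_eq_left g1] at h1
            rw [max_eq_right (by omega : a ≤ b), max_eq_right g1] at h2
            exact ⟨h1, h2⟩
          · have g1 : ¬ a' ≤ b' := fun hh => by
              have := h3.2 hh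
              omega
            rw [min_eq_right g, min_eq_right (by omega)] at h1
            rw [max_eq_left g, max_eq_left (by omega)] at h2
            exact ⟨h2, h1⟩
      obtain ⟨rfl, rfl⟩ := e1
      congr 3
      omega
    have h1 := hsumB.comp_injective hφ
    refine h1.congr (fun t => ?_)
    simp only [Function.comp, φ]
    rw [ht_of' t.2, rd_of' t.2]
  refine ⟨hsumA, ?_⟩
  have hm := mean_abs (ι := allT) (fun t => Real.log t.1.2.2 ^ s)
    (fun t => rad (t.1.1 * t.1.2.1 * t.1.2.2)) (fun t => by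
      have : 0 ≤ Real.log t.1.2.2 := Real.log_natCast_nonneg _
      positivity) (fun t => rad_pos _) hsumA
  refine hm.2.congr (fun Y => ?_)
  congr 1
  apply Finset.sum_congr rfl
  intro r _
  rw [tsum_subtype (triples r) (fun t => Real.log t.2.2 ^ s),
    tsum_subtype allT (fun t => if rad (t.1 * t.2.1 * t.2.2) ∣ r then Real.log t.2.2 ^ s else 0)]
  congr 1
  ext t
  by_cases h : t ∈ allT
  · have hne : t.1 * t.2.1 * t.2.2 ≠ 0 := by
      obtain ⟨h1, h2, h3, _⟩ := h
      have : 0 < t.2.2 := by omega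
      positivity
    rw [Set.indicator_of_mem h]
    by_cases h2 : rad (t.1 * t.2.1 * t.2.2) ∣ r
    · rw [if_pos h2, Set.indicator_of_mem (show t ∈ triples r from ⟨h, (rad_dvd_iff hne).1 h2⟩)]
    · rw [if_neg h2, Set.indicator_of_notMem]
      intro h3
      exact h2 ((rad_dvd_iff hne).2 h3.2)
  · rw [Set.indicator_of_notMem h, Set.indicator_of_notMem]
    intro h3
    exact h h3.1

end Pool.Agent.Lib.AbcH
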