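import Pool.Agent.Lib.Pabc14.Final
import Pool.Agent.Lib.Pabc10.BoxMain

/-!
# FewExceptions: convergence of the sum of `(log c) ^ s / rad` over all triples, and the mean over `r`
-/

open Finset Filter Topology

namespace Pool.Agent.Lib.AbcH

open Pool.Agent.Lib.Pabc2 Pool.Agent.Lib.Pabc1 Pool.Agent.Lib.AbcL

/-- Fewer than `n` triples have radical at most `n`. -/
theorem all_card : ∀ᶠ n : ℕ in atTop, ∀ T : Finset (ℕ × ℕ), (∀ t ∈ T, IsT t ∧ rd t ≤ n) →
    (T.card : ℝ) ≤ (n : ℝ) ^ (31 / 32 : ℝ) := by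
  filter_upwards [Pabc9.main_all Pabc9.thmE (1 / 32) (by norm_num)] with n h T hT
  have h2 := h T hT
  have h3 : (0 : ℝ) ≤ T.card := Nat.cast_nonneg _
  rw [show (1 : ℝ) - 1 / 16 + 1 / 32 = 31 / 32 by norm_num] at h2
  linarith

/-- A power of a logarithm is eventually smaller than a power. -/
theorem ev_log_rpow_le (C s δ : ℝ) (hC : 0 ≤ C) (hs : 0 ≤ s) (hδ : 0 < δ) :
    ∀ᶠ n : ℕ in atTop, (C * Real.log n) ^ s ≤ (n : ℝ) ^ δ := by
  have hlim : Tendsto (fun n : ℕ => (n : ℝ)) atTop atTop := tendsto_natCast_atTop_atTop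
  rcases hs.eq_or_lt with rfl | hs0
  · filter_upwards [eventually_ge_atTop 1] with n hn
    rw [Real.rpow_zero]
    exact Real.one_le_rpow (by exact_mod_cast hn) hδ.le
  have h1 : (fun x : ℝ => C * Real.log x) =o[atTop] fun x : ℝ => x ^ (δ / s) :=
    (isLittleO_log_rpow_atTop (by positivity)).const_mul_left C
  filter_upwards [hlim.eventually (h1.bound (show (0 : ℝ) < 1 by norm_num)),
    eventually_ge_atTop 1] with n h2 hn
  have hn1 : (1 : ℝ) ≤ n := by exact_mod_cast hn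
  have hn0 : (0 : ℝ) < n := by linarith
  have hl : 0 ≤ Real.log n := Real.log_nonneg hn1
  rw [one_mul, Real.norm_of_nonneg (by positivity), Real.norm_of_nonneg (by positivity)] at h2
  calc (C * Real.log n) ^ s ≤ ((n : ℝ) ^ (δ / s)) ^ s :=
        Real.rpow_le_rpow (by positivity) h2 hs
    _ = (n : ℝ) ^ δ := by
        rw [← Real.rpow_mul hn0.le, div_mul_cancel₀ _ hs0.ne']

/-- The contribution of the triples with radical in `[n/2, n]`. -/
theorem block (s θ : ℝ) (hs : 0 < s) (hθ : 0 ≤ θ) (hsθ : s * θ < 2 / 3)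
    (hH : ∃ K : ℝ, ∀ t, IsT t → ht t ≤ K * (rd t : ℝ) ^ θ) :
    ∃ κ : ℝ, 0 < κ ∧ ∀ᶠ n : ℕ in atTop, ∀ T : Finset (ℕ × ℕ),
      (∀ t ∈ T, IsT t ∧ rd t ≤ n ∧ n ≤ 2 * rd t) →
      ∑ t ∈ T, ht t ^ s / rd t ≤ (n : ℝ) ^ (-κ) := by
  classical
  obtain ⟨K', hK'⟩ := hH
  obtain ⟨K, hKdef⟩ : ∃ K : ℝ, K = max K' 1 := ⟨_, rfl⟩
  have hK1 : 1 ≤ K := by rw [hKdef]; exact le_max_right _ _
  have hK : ∀ t, IsT t → ht t ≤ K * (rd t : ℝ) ^ θ := by
    intro t h
    refine (hK' t h).trans ?_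
    have : K' ≤ K := by rw [hKdef]; exact le_max_left _ _
    gcongr
  obtain ⟨δ, hδdef⟩ : ∃ δ : ℝ, δ = min ((2 / 3 - s * θ) / 4) (1 / 128) := ⟨_, rfl⟩
  have hδ0 : 0 < δ := by
    rw [hδdef]
    apply lt_min
    · linarith
    · norm_num
  have hδ1 : 4 * δ ≤ 2 / 3 - s * θ := by
    have := min_le_left ((2 / 3 - s * θ) / 4) (1 / 128)
    rw [← hδdef] at this
    linarith
  have hδ2 : 4 * δ ≤ 1 / 32 := by
    have := min_le_right ((2 / 3 - s * θ) / 4) (1 / 128)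
    rw [← hδdef] at this
    linarith
  obtain ⟨M0, hM01, hM0⟩ := Pabc14.tall_all δ hδ0
  refine ⟨δ, hδ0, ?_⟩
  have hlim : Tendsto (fun n : ℕ => (n : ℝ)) atTop atTop := tendsto_natCast_atTop_atTop
  filter_upwards [hM0, all_card, ev_log_rpow_le M0 s δ (by linarith) hs.le hδ0,
    ((tendsto_rpow_atTop hδ0).comp hlim).eventually_ge_atTop (2 * K ^ s + 2),
    eventually_ge_atTop 1] with n h1 h2 h3 h4 hn1 T hT
  simp only [Function.comp] at h4
  have hn0 : (0 : ℝ) < n := by exact_mod_cast hn1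
  have hn1' : (1 : ℝ) ≤ n := by exact_mod_cast hn1
  have hKs : 0 ≤ K ^ s := Real.rpow_nonneg (by linarith) _
  -- each radical is at least `n/2`
  have hrd : ∀ t ∈ T, (n : ℝ) / 2 ≤ rd t := by
    intro t ht'
    have := (hT t ht').2.2
    have h5 : (n : ℝ) ≤ 2 * rd t := by exact_mod_cast this
    linarith
  have hht0 : ∀ t ∈ T, 0 ≤ ht t := fun t ht' => (ht_pos (hT t ht').1).le
  obtain ⟨T1, hT1⟩ : ∃ T1, T1 = T.filter (fun t => M0 * Real.log n ≤ ht t) := ⟨_, rfl⟩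
  obtain ⟨T2, hT2⟩ : ∃ T2, T2 = T.filter (fun t => ¬ M0 * Real.log n ≤ ht t) := ⟨_, rfl⟩
  have hsplit : ∑ t ∈ T, ht t ^ s / rd t = ∑ t ∈ T1, ht t ^ s / rd t + ∑ t ∈ T2, ht t ^ s / rd t := by
    rw [hT1, hT2]
    exact (Finset.sum_filter_add_sum_filter_not T _ _).symm
  have hc1 : (T1.card : ℝ) ≤ (n : ℝ) ^ (1 / 3 + δ) := by
    apply h1
    intro t ht'
    rw [hT1, Finset.mem_filter] at ht'
    exact ⟨(hT t ht'.1).1, (hT t ht'.1).2.1, ht'.2⟩
  have hc2 : (T2.card : ℝ) ≤ (n : ℝ) ^ (31 / 32 : ℝ) := by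
    apply h2
    intro t ht'
    rw [hT2, Finset.mem_filter] at ht'
    exact ⟨(hT t ht'.1).1, (hT t ht'.1).2.1⟩
  have hs1 : ∑ t ∈ T1, ht t ^ s / rd t ≤ 2 * K ^ s * (n : ℝ) ^ (-(2 * δ)) := by
    have hterm : ∀ t ∈ T1, ht t ^ s / rd t ≤ K ^ s * (n : ℝ) ^ (s * θ) * (2 / n) := by
      intro t ht'
      rw [hT1, Finset.mem_filter] at ht'
      have hI := (hT t ht'.1).1
      have hr := (hT t ht'.1).2.1
      have hr' : (rd t : ℝ) ≤ n := by exact_mod_cast hr
      have hrd0 : (0 : ℝ) < rd t := by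
        have := hrd t ht'.1
        linarith
      have e1 : ht t ≤ K * (n : ℝ) ^ θ := by
        refine (hK t hI).trans ?_
        have : (rd t : ℝ) ^ θ ≤ (n : ℝ) ^ θ := Real.rpow_le_rpow hrd0.le hr' hθ
        gcongr
      have e2 : ht t ^ s ≤ K ^ s * (n : ℝ) ^ (s * θ) := by
        calc ht t ^ s ≤ (K * (n : ℝ) ^ θ) ^ s := Real.rpow_le_rpow (hht0 t ht'.1) e1 hs.le
          _ = K ^ s * (n : ℝ) ^ (s * θ) := by
              rw [Real.mul_rpow (by linarith) (by positivity), ← Real.rpow_mul hn0.le, mul_comm θ s]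
      have e3 : 1 / (rd t : ℝ) ≤ 2 / n := by
        rw [div_le_div_iff₀ hrd0 hn0]
        have := hrd t ht'.1
        linarith
      calc ht t ^ s / rd t = ht t ^ s * (1 / rd t) := by ring
        _ ≤ K ^ s * (n : ℝ) ^ (s * θ) * (2 / n) := by
            apply mul_le_mul e2 e3 (by positivity) (by positivity)
    calc ∑ t ∈ T1, ht t ^ s / rd t ≤ ∑ _t ∈ T1, K ^ s * (n : ℝ) ^ (s * θ) * (2 / n) :=
          Finset.sum_le_sum hterm
      _ = T1.card * (K ^ s * (n : ℝ) ^ (s * θ) * (2 / n)) := by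
          rw [Finset.sum_const, nsmul_eq_mul]
      _ ≤ (n : ℝ) ^ (1 / 3 + δ) * (K ^ s * (n : ℝ) ^ (s * θ) * (2 / n)) := by
          gcongr
      _ = 2 * K ^ s * ((n : ℝ) ^ (1 / 3 + δ) * (n : ℝ) ^ (s * θ) * (n : ℝ) ^ (-1 : ℝ)) := by
          rw [Real.rpow_neg_one]
          ring
      _ = 2 * K ^ s * (n : ℝ) ^ (1 / 3 + δ + s * θ + -1) := by
          rw [← Real.rpow_add hn0, ← Real.rpow_add hn0]
      _ ≤ 2 * K ^ s * (n : ℝ) ^ (-(2 * δ)) := by
          apply mul_le_mul_of_nonneg_left _ (by positivity)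
          apply Real.rpow_le_rpow_of_exponent_le hn1'
          linarith
  have hs2 : ∑ t ∈ T2, ht t ^ s / rd t ≤ 2 * (n : ℝ) ^ (-(2 * δ)) := by
    have hterm : ∀ t ∈ T2, ht t ^ s / rd t ≤ (n : ℝ) ^ δ * (2 / n) := by
      intro t ht'
      rw [hT2, Finset.mem_filter, not_le] at ht'
      have hrd0 : (0 : ℝ) < rd t := by
        have := hrd t ht'.1
        linarith
      have e2 : ht t ^ s ≤ (n : ℝ) ^ δ :=
        (Real.rpow_le_rpow (hht0 t ht'.1) ht'.2.le hs.le).trans h3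
      have e3 : 1 / (rd t : ℝ) ≤ 2 / n := by
        rw [div_le_div_iff₀ hrd0 hn0]
        have := hrd t ht'.1
        linarith
      calc ht t ^ s / rd t = ht t ^ s * (1 / rd t) := by ring
        _ ≤ (n : ℝ) ^ δ * (2 / n) := by
            apply mul_le_mul e2 e3 (by positivity) (by positivity)
    calc ∑ t ∈ T2, ht t ^ s / rd t ≤ ∑ _t ∈ T2, (n : ℝ) ^ δ * (2 / n) :=
          Finset.sum_le_sum hterm
      _ = T2.card * ((n : ℝ) ^ δ * (2 / n)) := by
          rw [Finset.sum_const, nsmul_eq_mul]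
      _ ≤ (n : ℝ) ^ (31 / 32 : ℝ) * ((n : ℝ) ^ δ * (2 / n)) := by
          gcongr
      _ = 2 * ((n : ℝ) ^ (31 / 32 : ℝ) * (n : ℝ) ^ δ * (n : ℝ) ^ (-1 : ℝ)) := by
          rw [Real.rpow_neg_one]
          ring
      _ = 2 * (n : ℝ) ^ (31 / 32 + δ + -1) := by
          rw [← Real.rpow_add hn0, ← Real.rpow_add hn0]
      _ ≤ 2 * (n : ℝ) ^ (-(2 * δ)) := by
          apply mul_le_mul_of_nonneg_left _ (by positivity)
          apply Real.rpow_le_rpow_of_exponent_le hn1'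
          linarith
  rw [hsplit]
  calc ∑ t ∈ T1, ht t ^ s / rd t + ∑ t ∈ T2, ht t ^ s / rd t
      ≤ (2 * K ^ s + 2) * (n : ℝ) ^ (-(2 * δ)) := by linarith
    _ ≤ (n : ℝ) ^ δ * (n : ℝ) ^ (-(2 * δ)) := by gcongr
    _ = (n : ℝ) ^ (-δ) := by
        rw [← Real.rpow_add hn0]
        congr 1
        ring

/-- All finite partial sums of `(log c) ^ s / rad` are bounded. -/
theorem total (s θ : ℝ) (hs : 0 < s) (hθ : 0 ≤ θ) (hsθ : s * θ < 2 / 3)
    (hH : ∃ K : ℝ, ∀ t, IsT t → ht t ≤ K * (rd t : ℝ) ^ θ) :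
    ∃ C : ℝ, ∀ T : Finset (ℕ × ℕ), (∀ t ∈ T, IsT t) → ∑ t ∈ T, ht t ^ s / rd t ≤ C := by
  classical
  obtain ⟨κ, hκ0, hκ⟩ := block s θ hs hθ hsθ hH
  obtain ⟨n0, hn0⟩ := hκ.exists_forall_of_atTop
  obtain ⟨q, hq⟩ : ∃ q : ℝ, q = (2 : ℝ) ^ (-κ) := ⟨_, rfl⟩
  have hq0 : 0 ≤ q := by rw [hq]; positivity
  have hq1 : q < 1 := by
    rw [hq]
    apply Real.rpow_lt_one_of_one_lt_of_neg (by norm_num) (by linarith)
  have hterm0 : ∀ t : ℕ × ℕ, IsT t → 0 ≤ ht t ^ s / rd t := fun t hI => by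
    have := (ht_pos hI).le
    positivity
  -- the part with radical below `n0`
  obtain ⟨C0, hC0⟩ : ∃ C0 : ℝ, C0 = ∑ t ∈ (Pabc10.finite_rd n0).toFinset, ht t ^ s / rd t := ⟨_, rfl⟩
  refine ⟨C0 + 1 / (1 - q), ?_⟩
  intro T hT
  obtain ⟨T1, hT1⟩ : ∃ T1, T1 = T.filter (fun t => rd t ≤ n0) := ⟨_, rfl⟩
  obtain ⟨T2, hT2⟩ : ∃ T2, T2 = T.filter (fun t => ¬ rd t ≤ n0) := ⟨_, rfl⟩
  have hsplit : ∑ t ∈ T, ht t ^ s / rd t = ∑ t ∈ T1, ht t ^ s / rd t + ∑ t ∈ T2, ht t ^ s / rd t := by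
    rw [hT1, hT2]
    exact (Finset.sum_filter_add_sum_filter_not T _ _).symm
  have h1 : ∑ t ∈ T1, ht t ^ s / rd t ≤ C0 := by
    rw [hC0]
    apply Finset.sum_le_sum_of_subset_of_nonneg
    · intro t ht'
      rw [hT1, Finset.mem_filter] at ht'
      rw [Set.Finite.mem_toFinset]
      exact ⟨hT t ht'.1, ht'.2⟩
    · intro t ht' _
      rw [Set.Finite.mem_toFinset] at ht'
      exact hterm0 t ht'.1
  -- the dyadic parts
  obtain ⟨J, hJ⟩ : ∃ J : ℕ, ∀ t ∈ T2, Nat.log 2 (rd t) < J := by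
    refine ⟨(T2.sup fun t => Nat.log 2 (rd t)) + 1, ?_⟩
    intro t ht'
    rw [Nat.lt_succ_iff]
    exact Finset.le_sup (f := fun t => Nat.log 2 (rd t)) ht'
  have h2 : ∑ t ∈ T2, ht t ^ s / rd t ≤ ∑ j ∈ Finset.range J, q ^ j := by
    rw [← Finset.sum_fiberwise_of_maps_to (s := T2) (t := Finset.range J)
      (g := fun t => Nat.log 2 (rd t)) (fun t ht' => Finset.mem_range.mpr (hJ t ht'))]
    apply Finset.sum_le_sum
    intro j _
    rcases (T2.filter (fun t => Nat.log 2 (rd t) = j)).eq_empty_or_nonempty with he | ⟨t0, ht0⟩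
    · rw [he, Finset.sum_empty]
      positivity
    rw [Finset.mem_filter] at ht0
    have hlow : ∀ t ∈ T2.filter (fun t => Nat.log 2 (rd t) = j), IsT t ∧ rd t ≤ 2 ^ (j + 1) ∧
        2 ^ (j + 1) ≤ 2 * rd t := by
      intro t ht'
      rw [Finset.mem_filter] at ht'
      have hI : IsT t := by
        have := ht'.1
        rw [hT2, Finset.mem_filter] at this
        exact hT t this.1
      have hr0 : rd t ≠ 0 := by
        have := rd_pos t
        omega
      have e1 : 2 ^ j ≤ rd t := by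
        rw [← ht'.2]
        exact Nat.pow_log_le_self 2 hr0
      have e2 : rd t < 2 ^ (j + 1) := by
        rw [← ht'.2]
        exact Nat.lt_pow_succ_log_self (by norm_num) _
      refine ⟨hI, e2.le, ?_⟩
      rw [pow_succ]
      omega
    have hbig : n0 ≤ 2 ^ (j + 1) := by
      have e1 := ht0.1
      rw [hT2, Finset.mem_filter, not_le] at e1
      have e2 := (hlow t0 (Finset.mem_filter.mpr ht0)).2.1
      omega
    refine (hn0 _ hbig _ hlow).trans ?_
    have e3 : (((2 ^ (j + 1) : ℕ) : ℝ)) ^ (-κ) = q ^ (j + 1) := by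
      rw [hq]
      push_cast
      rw [← Real.rpow_natCast (2 : ℝ) (j + 1), ← Real.rpow_mul (by norm_num),
        ← Real.rpow_natCast ((2 : ℝ) ^ (-κ)) (j + 1), ← Real.rpow_mul (by norm_num)]
      congr 1
      ring
    rw [e3, pow_succ]
    have : 0 ≤ q ^ j := by positivity
    nlinarith
  have h3 : ∑ j ∈ Finset.range J, q ^ j ≤ 1 / (1 - q) := by
    rw [one_div, ← tsum_geometric_of_lt_one hq0 hq1]
    exact Summable.sum_le_tsum _ (fun j _ => by positivity) (summable_geometric_of_lt_one hq0 hq1)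
  rw [hsplit]
  linarith

/-- The mean over `r` of the sum of `f` over all `i` with `d i ∣ r`. -/
theorem mean_abs {ι : Type*} (f : ι → ℝ) (d : ι → ℕ) (hf : ∀ i, 0 ≤ f i) (hd : ∀ i, 0 < d i)
    (hs : Summable fun i => f i / d i) :
    (∀ r : ℕ, 0 < r → Summable fun i => if d i ∣ r then f i else 0) ∧
    Tendsto (fun Y : ℕ => (∑ r ∈ Finset.Icc 1 Y, ∑' i, if d i ∣ r then f i else 0) / Y) atTop
      (𝓝 (∑' i, f i / d i)) := by
  classical
  have hsum : ∀ r : ℕ, 0 < r → Summable fun i => if d i ∣ r then f i else 0 := by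
    intro r hr
    refine Summable.of_nonneg_of_le (fun i => ?_) (fun i => ?_) (hs.mul_left (r : ℝ))
    · split_ifs
      · exact hf i
      · exact le_rfl
    · have hd0 : (0 : ℝ) < d i := by exact_mod_cast hd i
      split_ifs with h
      · have hle : (d i : ℝ) ≤ r := by exact_mod_cast Nat.le_of_dvd hr h
        have := hf i
        rw [mul_div_assoc', le_div_iff₀ hd0]
        nlinarith
      · have := hf i
        positivity
  refine ⟨hsum, ?_⟩
  have hcount : ∀ (Y : ℕ) (i : ι), ∑ r ∈ Finset.Icc 1 Y, (if d i ∣ r then f i else 0) =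
      f i * ((Y / d i : ℕ) : ℝ) := by
    intro Y i
    rw [← Finset.sum_filter, Finset.sum_const, nsmul_eq_mul, mul_comm]
    congr 2
    have : Finset.filter (fun r => d i ∣ r) (Finset.Icc 1 Y) =
        Finset.filter (fun r => d i ∣ r) (Finset.Ioc 0 Y) := by
      ext r
      simp only [Finset.mem_filter, Finset.mem_Icc, Finset.mem_Ioc]
      constructor
      · rintro ⟨⟨h1, h2⟩, h3⟩
        exact ⟨⟨by omega, h2⟩, h3⟩
      · rintro ⟨⟨h1, h2⟩, h3⟩
        exact ⟨⟨by omega, h2⟩, h3⟩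
    rw [this]
    exact Nat.Ioc_filter_dvd_card_eq_div Y (d i)
  have heq : ∀ Y : ℕ, (∑ r ∈ Finset.Icc 1 Y, ∑' i, if d i ∣ r then f i else 0) / Y =
      ∑' i, f i * ((Y / d i : ℕ) : ℝ) / Y := by
    intro Y
    rw [← Summable.tsum_finsetSum (fun r hr => hsum r (by
      rw [Finset.mem_Icc] at hr
      omega)), ← tsum_div_const]
    congr 1
    ext i
    rw [hcount]
  simp only [heq]
  apply tendsto_tsum_of_dominated_convergence hs
  · intro i
    have hd0 : (0 : ℝ) < d i := by exact_mod_cast hd i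
    have h1 : Tendsto (fun Y : ℕ => ((Y / d i : ℕ) : ℝ) / Y) atTop (𝓝 (1 / d i)) := by
      have hY : Tendsto (fun Y : ℕ => (1 : ℝ) / Y) atTop (𝓝 0) := tendsto_one_div_atTop_nhds_zero_nat
      have hlow : Tendsto (fun Y : ℕ => 1 / (d i : ℝ) - 1 / Y) atTop (𝓝 (1 / d i)) := by
        simpa using tendsto_const_nhds.sub hY
      refine tendsto_of_tendsto_of_tendsto_of_le_of_le' hlow tendsto_const_nhds ?_ ?_
      · filter_upwards [eventually_gt_atTop 0] with Y hY0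
        have hY0' : (0 : ℝ) < Y := by exact_mod_cast hY0
        have h2 : (Y : ℝ) / d i < ((Y / d i : ℕ) : ℝ) + 1 := by
          rw [← Nat.floor_div_eq_div (K := ℝ)]
          exact Nat.lt_floor_add_one _
        rw [le_div_iff₀ hY0', sub_mul, one_div_mul_cancel hY0'.ne', one_div_mul_eq_div]
        linarith
      · filter_upwards [eventually_gt_atTop 0] with Y hY0
        have hY0' : (0 : ℝ) < Y := by exact_mod_cast hY0
        have h2 : ((Y / d i : ℕ) : ℝ) ≤ (Y : ℝ) / d i := Nat.cast_div_le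
        rw [div_le_iff₀ hY0', one_div_mul_eq_div]
        exact h2
    have h2 := h1.const_mul (f i)
    have e1 : (fun Y : ℕ => f i * ((Y / d i : ℕ) : ℝ) / Y) =
        fun Y : ℕ => f i * (((Y / d i : ℕ) : ℝ) / Y) := by
      ext Y
      ring
    rw [e1]
    have e2 : f i / d i = f i * (1 / d i) := by ring
    rw [e2]
    exact h2
  · filter_upwards [eventually_gt_atTop 0] with Y hY0 i
    have hY0' : (0 : ℝ) < Y := by exact_mod_cast hY0
    have hd0 : (0 : ℝ) < d i := by exact_mod_cast hd i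
    have hfi := hf i
    have h2 : ((Y / d i : ℕ) : ℝ) ≤ (Y : ℝ) / d i := Nat.cast_div_le
    rw [Real.norm_of_nonneg (by positivity), div_le_div_iff₀ hY0' hd0]
    have h3 : ((Y / d i : ℕ) : ℝ) * d i ≤ Y := by
      rw [le_div_iff₀ hd0] at h2
      exact h2
    nlinarith

end Pool.Agent.Lib.AbcH
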